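import Pool.Agent.Helper89.VR.Main

/-!
Glue between the combinatorial theorem and the ring construction (problem MP_aa9b56_al).
-/

set_option autoImplicit false

namespace Pool.Agent.Helper89.VR

theorem exists_ring' {V S : Type} [LinearOrder V] [WellFoundedLT V] [NoMaxOrder V] (m : S → V)
    (f : V → V → S → ZMod 2)
    (coh : ∀ a b c, a < b → b < c → {s | m s < a ∧ f a b s + f b c s + f a c s ≠ 0}.Finite)
    (nontriv : ¬ ∃ g : V → S → ZMod 2, ∀ a b, a < b →
      {s | m s < a ∧ f a b s ≠ g a s + g b s}.Finite) :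
    ∃ (R : Type) (_ : CommRing R), (∀ I K : Ideal R, I ≤ K ∨ K ≤ I) ∧
      ∃ P : Ideal R, P.IsMaximal ∧ ∃ al : V → R,
        (∀ v, al v ≠ 0) ∧ (∀ v w, v < w → ∃ e ∈ P, al w = al v * e) ∧
        ¬ ∃ s : V → V → R,
          (∀ a b c, a < b → b < c → ∃ c' ∈ P, s a b * s b c - s a c = al c * c') ∧
          (∀ a b, a < b → ∃ c' ∈ P, al a * s a b - al b = al b * c') := by
  classical
  obtain ⟨lo, wf⟩ := exists_wellFoundedLT S
  let J := V ×ₗ WithBot S
  let hV : V → J := fun v => toLex (v, ⊥)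
  let ι : S → J := fun s => toLex (m s, (s : WithBot S))
  have hι : Function.Injective ι := by
    intro s t h
    have := congrArg (fun x => (ofLex x).2) h
    simpa [ι] using this
  have hιV : ∀ s v, ι s ≠ hV v := by
    intro s v h
    have := congrArg (fun x => (ofLex x).2) h
    simp [ι, hV] at this
  have hlt : ∀ s v, ι s < hV v ↔ m s < v := by
    intro s v
    show toLex (m s, (s : WithBot S)) < toLex (v, ⊥) ↔ m s < v
    rw [Prod.Lex.lt_iff]
    simp
  let f' : V → V → J → ZMod 2 := fun a b j =>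
    if h : ∃ s, ι s = j then f a b h.choose else 0
  have hf' : ∀ a b s, f' a b (ι s) = f a b s := by
    intro a b s
    have h : ∃ t, ι t = ι s := ⟨s, rfl⟩
    simp only [f', dif_pos h]
    congr 1
    exact hι h.choose_spec
  have hf0 : ∀ a b j, (∀ s, ι s ≠ j) → f' a b j = 0 := by
    intro a b j h
    simp only [f']
    rw [dif_neg]
    push Not
    exact h
  refine exists_ring (V := V) (J := J) hV ?_ ?_ f' ?_ ?_ ?_
  · intro v w h
    show toLex (v, (⊥ : WithBot S)) < toLex (w, ⊥)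
    rw [Prod.Lex.lt_iff]
    exact Or.inl h
  · intro j
    obtain ⟨w, hw⟩ := exists_gt (ofLex j).1
    refine ⟨w, le_of_lt ?_⟩
    show j < toLex (w, ⊥)
    rw [Prod.Lex.lt_iff]
    exact Or.inl hw
  · intro a b v
    exact hf0 a b _ (fun s => hιV s v)
  · intro a b c hab hbc
    refine ((coh a b c hab hbc).image ι).subset ?_
    rintro j ⟨hj, h⟩
    by_cases h1 : ∃ s, ι s = j
    · obtain ⟨s, rfl⟩ := h1
      refine ⟨s, ⟨(hlt _ _).1 hj, ?_⟩, rfl⟩
      simpa only [hf'] using h
    · push Not at h1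
      simp [hf0 _ _ _ h1] at h
  · rintro ⟨g, hg⟩
    refine nontriv ⟨fun a s => g a (ι s), fun a b hab => ?_⟩
    refine Set.Finite.subset ((hg a b hab).preimage hι.injOn) ?_
    rintro s ⟨hs, h⟩
    refine ⟨(hlt _ _).2 hs, ?_⟩
    rwa [hf']

end Pool.Agent.Helper89.VR
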