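import Pool.Agent.Helper89.VR.NotConj
import Pool.Agent.Helper89.VR.Glue

/-!
Assembly of the disproof of MP_aa9b56_al, modulo the combinatorial theorem.
-/

set_option autoImplicit false

namespace Pool.Agent.Helper89.VR

theorem not_conj_of_coherent {V S : Type} [LinearOrder V] [WellFoundedLT V] [NoMaxOrder V]
    (m : S → V) (f : V → V → S → ZMod 2)
    (coh : ∀ a b c, a < b → b < c → {s | m s < a ∧ f a b s + f b c s + f a c s ≠ 0}.Finite)
    (nontriv : ¬ ∃ g : V → S → ZMod 2, ∀ a b, a < b →
      {s | m s < a ∧ f a b s ≠ g a s + g b s}.Finite) : ¬ Conj := by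
  obtain ⟨R, _, hR, P, hP, al, h1, h2, h3⟩ := exists_ring' m f coh nontriv
  exact not_conj_of_ring R hR P hP al h1 h2 h3

end Pool.Agent.Helper89.VR
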