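import Mathlib

/-!
Hahn series tools for the twisted valuation ring (problem MP_aa9b56_al).
-/

set_option autoImplicit false
set_option linter.unusedSectionVars false

open HahnSeries

noncomputable section

namespace Pool.Agent.Helper89.VR

section der
variable {Γ K : Type} [AddCommGroup Γ] [LinearOrder Γ] [IsOrderedAddMonoid Γ] [Field K]

/-- The derivation `t^γ ↦ φ γ t^γ` of a Hahn series field. -/
def der (φ : Γ →+ K) (x : HahnSeries Γ K) : HahnSeries Γ K where
  coeff γ := φ γ * x.coeff γ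
  isPWO_support' := x.isPWO_support.mono (by
    intro γ h
    exact fun h0 => h (by simp [h0]))

theorem coeff_der (φ : Γ →+ K) (x : HahnSeries Γ K) (γ : Γ) :
    (der φ x).coeff γ = φ γ * x.coeff γ := rfl

theorem support_der (φ : Γ →+ K) (x : HahnSeries Γ K) : (der φ x).support ⊆ x.support := by
  intro γ h h0
  exact h (by rw [coeff_der, h0, mul_zero])

theorem der_add (φ : Γ →+ K) (x y : HahnSeries Γ K) : der φ (x + y) = der φ x + der φ y := by
  ext γ
  simp [coeff_der, mul_add]

theorem der_mul (φ : Γ →+ K) (x y : HahnSeries Γ K) :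
    der φ (x * y) = der φ x * y + x * der φ y := by
  ext a
  rw [coeff_add, coeff_mul_left' x.isPWO_support (support_der φ x),
    coeff_mul_right' y.isPWO_support (support_der φ y), coeff_der, coeff_mul, Finset.mul_sum,
    ← Finset.sum_add_distrib]
  refine Finset.sum_congr rfl fun ij hij => ?_
  obtain ⟨-, -, h⟩ := (Finset.mem_antidiagonal.1 hij)
  rw [coeff_der, coeff_der, ← h, map_add]
  ring
end der

section gp
variable {Γ K : Type} [AddCommGroup Γ] [LinearOrder Γ] [IsOrderedAddMonoid Γ] [Field K]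

theorem support_inv_subset (G : AddSubgroup Γ) {x : HahnSeries Γ K} (hx : x.support ⊆ G) :
    (x⁻¹).support ⊆ G := by
  let ι : HahnSeries G K →+* HahnSeries Γ K :=
    embDomainRingHom G.subtype Subtype.val_injective (fun _ _ => Iff.rfl)
  let x' : HahnSeries G K :=
    { coeff := fun g => x.coeff g
      isPWO_support' := by
        have h := x.isPWO_support
        rw [Set.IsPWO, Set.partiallyWellOrderedOn_iff_exists_lt] at h ⊢
        intro f hf
        exact h (fun n => (f n : Γ)) (fun n => hf n) }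
  have h1 : ι x' = x := by
    ext γ
    by_cases hγ : γ ∈ G
    · exact embDomain_coeff (f := ⟨⟨G.subtype, Subtype.val_injective⟩, Iff.rfl⟩) (a := (⟨γ, hγ⟩ : G))
    · have h2 : x.coeff γ = 0 := by
        by_contra h3
        exact hγ (hx h3)
      rw [h2]
      refine embDomain_of_notMem_range ?_
      rintro ⟨g, rfl⟩
      exact hγ g.2
  rw [← h1, ← map_inv₀]
  intro γ hγ
  obtain ⟨g, -, rfl⟩ := support_embDomain_subset hγ
  exact g.2

theorem support_mul_subset' {x y : HahnSeries Γ K} {A B C : Set Γ} (hx : x.support ⊆ A)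
    (hy : y.support ⊆ B) (h : ∀ a ∈ A, ∀ b ∈ B, a + b ∈ C) : (x * y).support ⊆ C := by
  intro γ hγ
  obtain ⟨a, ha, b, hb, rfl⟩ := support_mul_subset hγ
  exact h a (hx ha) b (hy hb)

theorem le_orderTop_iff_supp {x : HahnSeries Γ K} {c : Γ} :
    (c : WithTop Γ) ≤ x.orderTop ↔ ∀ γ ∈ x.support, c ≤ γ := by
  rw [le_orderTop_iff_forall]
  constructor
  · intro h γ hγ
    by_contra h1
    exact hγ (h γ (by simpa using h1))
  · intro h γ hγ
    by_contra h1
    exact absurd (h γ h1) (by simpa using hγ)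

theorem lt_orderTop_iff_supp {x : HahnSeries Γ K} {c : Γ} :
    (c : WithTop Γ) < x.orderTop ↔ ∀ γ ∈ x.support, c < γ := by
  constructor
  · intro h γ hγ
    have := orderTop_le_of_coeff_ne_zero hγ
    exact_mod_cast h.trans_le this
  · intro h
    by_cases hx : x = 0
    · simp [hx]
    · rw [orderTop_of_ne_zero hx]
      exact_mod_cast h _ (Set.IsWF.min_mem _ _)
end gp

/-- The value group: finitely supported integer vectors, lexicographically ordered. -/
abbrev Gam (J : Type) := Lex (J →₀ ℤ)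

section
variable {J : Type}

/-- coordinate -/
def co (j : J) : Gam J →+ ℤ where
  toFun γ := ofLex γ j
  map_zero' := rfl
  map_add' _ _ := rfl

/-- degree -/
def deg : Gam J →+ ℤ where
  toFun γ := (ofLex γ).sum fun _ n => n
  map_zero' := Finsupp.sum_zero_index
  map_add' _ _ := Finsupp.sum_add_index' (fun _ => rfl) (fun _ _ _ => rfl)

/-- generator -/
def gen (j : J) : Gam J := toLex (Finsupp.single j 1)

theorem co_gen_same (j : J) : co j (gen j) = 1 := by simp [co, gen]

theorem co_gen_ne {i j : J} (h : j ≠ i) : co i (gen j) = 0 := by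
  simp [co, gen, h]

theorem deg_gen (j : J) : deg (gen j) = 1 := by simp [deg, gen]

theorem gam_ext {a b : Gam J} (h : ∀ j, co j a = co j b) : a = b := by
  apply ofLex_inj.1
  exact Finsupp.ext h

variable [LinearOrder J]

theorem lt_iff {a b : Gam J} : a < b ↔ ∃ i, (∀ j, j < i → co j a = co j b) ∧ co i a < co i b :=
  Finsupp.Lex.lt_iff

theorem gen_lt_gen {i j : J} (h : i < j) : gen j < gen i := by
  rw [lt_iff]
  refine ⟨i, fun k hk => ?_, ?_⟩
  · rw [co_gen_ne (ne_of_gt (hk.trans h)), co_gen_ne (ne_of_gt hk)]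
  · rw [co_gen_same, co_gen_ne h.ne']
    exact one_pos

theorem gen_pos (j : J) : 0 < gen j := by
  rw [lt_iff]
  refine ⟨j, fun k hk => ?_, ?_⟩
  · rw [map_zero, co_gen_ne (ne_of_gt hk)]
  · rw [co_gen_same, map_zero]; exact one_pos

theorem sub_gen_pos {γ : Gam J} {j τ : J} (h0 : 0 ≤ γ) (hj : co j γ ≠ 0) (hτ : j < τ) :
    0 < γ - gen τ := by
  have h1 : 0 < γ := lt_of_le_of_ne h0 (by rintro rfl; exact hj (map_zero _))
  obtain ⟨i, hi, hi'⟩ := lt_iff.1 h1
  have hij : i ≤ j := by
    by_contra h2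
    push Not at h2
    exact hj (by rw [← hi j h2, map_zero])
  rw [lt_iff]
  refine ⟨i, fun k hk => ?_, ?_⟩
  · rw [hi k hk, map_sub, co_gen_ne (ne_of_gt (hk.trans_le (hij.trans hτ.le))), sub_zero]
  · rw [map_sub, co_gen_ne (ne_of_gt (hij.trans_lt hτ)), sub_zero]; exact hi'

/-- finite type exponents of degree `n` -/
def FT (n : ℤ) (F : Finset J) : Set (Gam J) := {γ | (∀ j, j ∉ F → co j γ = 0) ∧ deg γ = n}

theorem FT_mono {n : ℤ} {F F' : Finset J} (h : F ⊆ F') : FT n F ⊆ FT n F' :=
  fun _ hγ => ⟨fun j hj => hγ.1 j (fun h' => hj (h h')), hγ.2⟩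

theorem FT_add {n m : ℤ} {F F' : Finset J} {a b : Gam J} (ha : a ∈ FT n F) (hb : b ∈ FT m F') :
    a + b ∈ FT (n + m) (F ∪ F') := by
  refine ⟨fun j hj => ?_, by rw [map_add, ha.2, hb.2]⟩
  rw [Finset.mem_union, not_or] at hj
  rw [map_add, ha.1 j hj.1, hb.1 j hj.2, add_zero]

theorem FT_neg {n : ℤ} {F : Finset J} {a : Gam J} (ha : a ∈ FT n F) : -a ∈ FT (-n) F :=
  ⟨fun j hj => by rw [map_neg, ha.1 j hj, neg_zero], by rw [map_neg, ha.2]⟩

/-- subgroup of exponents of degree 0 and finite type `F` -/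
def GF (F : Finset J) : AddSubgroup (Gam J) where
  carrier := FT 0 F
  zero_mem' := ⟨fun _ _ => map_zero _, map_zero _⟩
  add_mem' {a b} ha hb := by simpa using FT_add ha hb
  neg_mem' {a} ha := by simpa using FT_neg ha

theorem deg_eq_sum {F : Finset J} {n : ℤ} {γ : Gam J} (h : γ ∈ FT n F) : ∑ j ∈ F, co j γ = n := by
  rw [← h.2]
  symm
  exact Finsupp.sum_of_support_subset (ofLex γ) (fun j hj => by
    by_contra h1
    exact (Finsupp.mem_support_iff.1 hj) (h.1 j h1)) (fun _ n => n) (fun _ _ => rfl)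
end

end Pool.Agent.Helper89.VR
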