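import Mathlib

/-!
Injective hull of a simple module (problem MP_aa9b56_al).
-/

set_option autoImplicit false

open CategoryTheory

namespace Pool.Agent.Helper89.VR

theorem exists_injective (R : Type) [CommRing R] (M : Type) [AddCommGroup M] [Module R M] :
    ∃ (E : Type) (_ : AddCommGroup E) (_ : Module R E) (i : M →ₗ[R] E),
      Function.Injective i ∧ Module.Injective R E := by
  have hEI : EnoughInjectives (ModuleCat.{0} R) := inferInstance
  let X : ModuleCat.{0} R := ModuleCat.of R M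
  let E : ModuleCat.{0} R := Injective.under X
  have hE : Injective E := inferInstance
  refine ⟨E, inferInstance, inferInstance, (Injective.ι X).hom, ?_, ?_⟩
  · exact (ModuleCat.mono_iff_injective _).1 inferInstance
  · exact Module.injective_module_of_injective_object R E

/-- The injective hull of `R/P`. -/
theorem exists_hull (R : Type) [CommRing R] (P : Ideal R) [hP : P.IsMaximal] :
    ∃ (N : Type) (_ : AddCommGroup N) (_ : Module R N) (x : N), x ≠ 0 ∧ (∀ r ∈ P, r • x = 0) ∧
      (∀ b : N, b ≠ 0 → ∃ r : R, r • b = x) ∧ Module.Injective R N := by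
  obtain ⟨E, _, _, i, hi, hE⟩ := exists_injective R (R ⧸ P)
  set x : E := i 1 with hx
  have hx0 : x ≠ 0 := by
    rw [hx, Ne, map_eq_zero_iff i hi]
    have := Ideal.Quotient.nontrivial_iff.2 hP.ne_top
    exact one_ne_zero
  have hPx : ∀ r ∈ P, r • x = 0 := by
    intro r hr
    rw [hx, ← map_smul, show r • (1 : R ⧸ P) = Ideal.Quotient.mk P r by
      rw [Algebra.smul_def, mul_one]; rfl, Ideal.Quotient.eq_zero_iff_mem.2 hr, map_zero]
  let T : Set E := {b | b ≠ 0 → ∃ r : R, r • b = x}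
  -- maximal N
  obtain ⟨N, hxN, hNmax⟩ := zorn_le_nonempty₀ {A : Submodule R E | (A : Set E) ⊆ T} (by
    intro c hc hchain y hy
    refine ⟨sSup c, ?_, fun z hz => le_sSup hz⟩
    intro b hb
    rw [SetLike.mem_coe, Submodule.mem_sSup_of_directed ⟨y, hy⟩ hchain.directedOn] at hb
    obtain ⟨A, hA, hbA⟩ := hb
    exact hc hA hbA) (Submodule.span R {x}) (by
    intro b hb hb0
    obtain ⟨r, rfl⟩ := Submodule.mem_span_singleton.1 hb
    have hr : r ∉ P := fun h => hb0 (hPx r h)
    obtain ⟨s, p, hp, hsp⟩ := Ideal.IsMaximal.exists_inv hP hr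
    refine ⟨s, ?_⟩
    rw [smul_smul]
    have h1 : s * r = 1 - p := by rw [← hsp]; ring
    rw [h1, sub_smul, one_smul, hPx p hp, sub_zero])
  have hxN' : x ∈ N := hxN (Submodule.mem_span_singleton_self x)
  have hNT : (N : Set E) ⊆ T := hNmax.prop
  -- maximal C
  obtain ⟨C, -, hCmax⟩ := zorn_le_nonempty₀ {A : Submodule R E | x ∉ A} (by
    intro c hc hchain y hy
    refine ⟨sSup c, ?_, fun z hz => le_sSup hz⟩
    intro h
    rw [Submodule.mem_sSup_of_directed ⟨y, hy⟩ hchain.directedOn] at h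
    obtain ⟨A, hA, hbA⟩ := h
    exact hc hA hbA) (⊥ : Submodule R E) (by simpa using hx0)
  have hxC : x ∉ C := hCmax.prop
  have hC : ∀ e : E, e ∉ C → ∃ r : R, r • e - x ∈ C := by
    intro e he
    have h1 : x ∈ C ⊔ Submodule.span R {e} := by
      by_contra h
      have h2 : C ⊔ Submodule.span R {e} ≤ C := hCmax.le_of_ge h le_sup_left
      exact he (h2 (le_sup_right (a := C) (Submodule.mem_span_singleton_self e)))
    obtain ⟨c, hc, y, hy, hcy⟩ := Submodule.mem_sup.1 h1
    obtain ⟨r, rfl⟩ := Submodule.mem_span_singleton.1 hy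
    refine ⟨r, ?_⟩
    rw [← hcy, show r • e - (c + r • e) = -c by abel]
    exact C.neg_mem hc
  have hinj : Function.Injective (C.mkQ ∘ₗ N.subtype) := by
    rw [injective_iff_map_eq_zero]
    intro b hb
    by_contra hb0
    obtain ⟨r, hr⟩ := hNT b.2 (fun h => hb0 (Subtype.ext h))
    have h1 : (b : E) ∈ C := by
      rwa [LinearMap.comp_apply, Submodule.mkQ_apply, Submodule.Quotient.mk_eq_zero] at hb
    exact hxC (hr ▸ C.smul_mem r h1)
  obtain ⟨φ, hφ⟩ := hE.out (C.mkQ ∘ₗ N.subtype) hinj N.subtype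
  have hφx : φ (C.mkQ x) = x := hφ ⟨x, hxN'⟩
  have hrange : ∀ e : E, φ (C.mkQ e) ∈ N := by
    have h1 : LinearMap.range φ ≤ N := by
      refine hNmax.le_of_ge ?_ ?_
      · rintro _ ⟨q, rfl⟩ hq
        obtain ⟨e, rfl⟩ := Submodule.mkQ_surjective C q
        have he : e ∉ C := by
          intro h
          apply hq
          rw [Submodule.mkQ_apply, (Submodule.Quotient.mk_eq_zero C).2 h, map_zero]
        obtain ⟨r, hr⟩ := hC e he
        refine ⟨r, ?_⟩
        rw [← map_smul, ← map_smul, ← hφx]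
        congr 1
        rw [← sub_eq_zero, ← map_sub, Submodule.mkQ_apply, Submodule.Quotient.mk_eq_zero]
        exact hr
      · intro b hb
        exact ⟨_, hφ ⟨b, hb⟩⟩
    intro e
    exact h1 ⟨_, rfl⟩
  let ρ : E →ₗ[R] N := (φ ∘ₗ C.mkQ).codRestrict N hrange
  have hρ : ∀ b : N, ρ b = b := by
    intro b
    apply Subtype.ext
    exact hφ b
  refine ⟨N, inferInstance, inferInstance, ⟨x, hxN'⟩, ?_, ?_, ?_, ?_⟩
  · intro h
    exact hx0 (congrArg Subtype.val h)
  · intro r hr
    apply Subtype.ext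
    exact hPx r hr
  · intro b hb
    obtain ⟨r, hr⟩ := hNT b.2 (fun h => hb (Subtype.ext h))
    exact ⟨r, Subtype.ext hr⟩
  · constructor
    intro X Y _ _ _ _ f hf g
    obtain ⟨h, hh⟩ := hE.out f hf (N.subtype ∘ₗ g)
    refine ⟨ρ ∘ₗ h, fun y => ?_⟩
    rw [LinearMap.comp_apply, hh]
    exact hρ _

end Pool.Agent.Helper89.VR
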