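import Pool.Agent.Helper89.VR.NoSys

/-!
Module B of the disproof of MP_aa9b56_al: from a nontrivial coherent family to a ring whose ideals
are totally ordered and which carries a multiplicatively incompatible system.
-/

set_option autoImplicit false

namespace Pool.Agent.Helper89.VR

theorem exists_ring {V J : Type} [LinearOrder V] [WellFoundedLT V] [LinearOrder J]
    [WellFoundedLT J] (hV : V → J) (mono : StrictMono hV) (cof : ∀ j, ∃ v, j ≤ hV v)
    (f : V → V → J → ZMod 2) (f0 : ∀ a b v, f a b (hV v) = 0)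
    (coh : ∀ a b c, a < b → b < c → {j | j < hV a ∧ f a b j + f b c j + f a c j ≠ 0}.Finite)
    (nontriv : ¬ ∃ g : V → J → ZMod 2, ∀ a b, a < b →
      {j | j < hV a ∧ f a b j ≠ g a j + g b j}.Finite) :
    ∃ (R : Type) (_ : CommRing R), (∀ I K : Ideal R, I ≤ K ∨ K ≤ I) ∧
      ∃ P : Ideal R, P.IsMaximal ∧ ∃ al : V → R,
        (∀ v, al v ≠ 0) ∧ (∀ v w, v < w → ∃ e ∈ P, al w = al v * e) ∧
        ¬ ∃ s : V → V → R,
          (∀ a b c, a < b → b < c → ∃ c' ∈ P, s a b * s b c - s a c = al c * c') ∧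
          (∀ a b, a < b → ∃ c' ∈ P, al a * s a b - al b = al b * c') := by
  have hne : Nonempty J := by
    by_contra h
    rw [not_nonempty_iff] at h
    refine nontriv ⟨fun _ _ => 0, fun a b _ => ?_⟩
    exact Set.toFinite _
  let 𝒞 : Data V J := ⟨hV, mono, cof, f, f0, coh⟩
  exact ⟨𝒞.RR, inferInstance, 𝒞.ideals_total, 𝒞.PP, 𝒞.PP_isMaximal, 𝒞.al, 𝒞.al_ne_zero,
    fun v w h => 𝒞.al_dvd h, 𝒞.no_sys nontriv⟩

end Pool.Agent.Helper89.VR
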