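import Pool.Agent.Helper89.VR.Sys

/-!
Logarithmic derivatives and the contradiction (problem MP_aa9b56_al).
-/

set_option autoImplicit false
set_option linter.unusedSectionVars false

open HahnSeries

noncomputable section

namespace Pool.Agent.Helper89.VR

section
variable {J : Type} [LinearOrder J]

theorem D_single (j : J) (c : Gam J) (k : ZMod 2) :
    D j (single c k) = C ((co j c : ℤ) : ZMod 2) * single c k := by
  ext γ
  rw [coeff_D, C_mul_eq_smul, coeff_smul, smul_eq_mul]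
  by_cases h : γ = c
  · rw [h]
  · rw [coeff_single_of_ne h, mul_zero, mul_zero]

theorem D_one (j : J) : D j (1 : HH J) = 0 := by
  have h := D_mul j (1 : HH J) 1
  simp only [mul_one, one_mul] at h
  rwa [left_eq_add] at h

theorem D_log (j : J) (c : Gam J) {p : HH J} (hp : 0 < p.orderTop) :
    D j (single c 1 * (1 + p)) / (single c 1 * (1 + p)) =
      C ((co j c : ℤ) : ZMod 2) + D j p * (1 + p)⁻¹ := by
  have h1 := (one_add_inv hp).1
  have h2 : (single c (1 : ZMod 2)) ≠ 0 := by simp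
  rw [D_mul, D_single, D_add, D_one, zero_add]
  field_simp

end

namespace Data
variable {V J : Type} [LinearOrder V] [WellFoundedLT V] [LinearOrder J] [WellFoundedLT J]
  (𝒞 : Data V J) [Nonempty J]

theorem sum_co (F : Finset J) {A B : J} (hA : A ∈ F) (hB : B ∈ F) (X : J → HH J) :
    ∑ j ∈ F, C ((co j (gen A - gen B) : ℤ) : ZMod 2) * X j = X A - X B := by
  classical
  have h1 : ∀ A j : J, C ((co j (gen A) : ℤ) : ZMod 2) * X j = if A = j then X j else 0 := by
    intro A j
    split_ifs with h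
    · rw [h, co_gen_same]; simp
    · rw [co_gen_ne h]; simp
  simp only [map_sub, Int.cast_sub, sub_mul, Finset.sum_sub_distrib, h1, Finset.sum_ite_eq, hA, hB,
    if_true]

theorem theta_div {F : Finset J} {β : J} {A B : J} (hA : A ∈ F) (hB : B ∈ F) {p : HH J}
    (hp : 0 < p.orderTop) (hpF : p.support ⊆ FT 0 F) {τ : J} (hτ : τ ∉ F) :
    (𝒞.theta F β (single (gen A - gen B) 1 * (1 + p)) / (single (gen A - gen B) 1 * (1 + p))).coeff
      (- gen τ) = 𝒞.ff (𝒞.p A) (𝒞.p β) τ + 𝒞.ff (𝒞.p B) (𝒞.p β) τ := by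
  have h1 : 𝒞.theta F β (single (gen A - gen B) 1 * (1 + p)) / (single (gen A - gen B) 1 * (1 + p)) =
      (𝒞.fs (𝒞.p A) (𝒞.p β) - 𝒞.fs (𝒞.p B) (𝒞.p β)) +
        ∑ j ∈ F, (D j p * (1 + p)⁻¹) * 𝒞.fs (𝒞.p j) (𝒞.p β) := by
    rw [← sum_co F hA hB (fun j => 𝒞.fs (𝒞.p j) (𝒞.p β)), ← Finset.sum_add_distrib, theta,
      Finset.sum_div]
    refine Finset.sum_congr rfl fun j _ => ?_
    rw [mul_div_right_comm, D_log j _ hp]
    ring
  rw [h1, coeff_add, coeff_sub, coeff_sum, fs, fs, coeff_ser, coeff_ser]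
  have h2 : ∑ j ∈ F, ((D j p * (1 + p)⁻¹) * 𝒞.fs (𝒞.p j) (𝒞.p β)).coeff (- gen τ) = 0 := by
    refine Finset.sum_eq_zero fun j _ => ?_
    by_contra h3
    obtain ⟨g, hg, y, hy, hgy⟩ := support_mul_subset (mem_support _ _ |>.2 h3)
    obtain ⟨τ', hτ', rfl⟩ := mem_support_ser hy
    simp only at hgy
    have hgF : g ∈ FT 0 F := by
      have h4 : (D j p * (1 + p)⁻¹).support ⊆ FT 0 F := by
        refine support_mul_subset' ((support_D j p).trans hpF) (support_inv_subset (GF F) ?_) ?_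
        · refine (support_add_subset _ _).trans (Set.union_subset ?_ hpF)
          exact (Dd_one F).1
        · intro a ha b hb
          exact (GF F).add_mem ha hb
      exact h4 hg
    have hg0 : 0 < g := by
      have h5 : ((0 : Gam J) : WithTop (Gam J)) < (D j p * (1 + p)⁻¹).orderTop := by
        have h6 : 0 < (D j p).orderTop := by
          show ((0 : Gam J) : WithTop (Gam J)) < _
          rw [lt_orderTop_iff_supp]
          intro γ hγ
          exact lt_orderTop_iff_supp.1 (show ((0 : Gam J) : WithTop (Gam J)) < _ from hp) γ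
            (support_D j p hγ)
        rw [mul_comm]
        exact orderTop_mul_pos (one_add_inv hp).2 h6
      exact lt_orderTop_iff_supp.1 h5 g hg
    have h7 : τ' = τ := by
      by_contra h8
      have h9 := hgF.1 τ hτ
      have h10 : co τ g = co τ (gen τ' - gen τ) := by
        congr 1
        rw [sub_eq_add_neg, ← hgy]
        abel
      rw [map_sub, co_gen_same, co_gen_ne h8, h9] at h10
      norm_num at h10
    rw [h7, add_eq_right] at hgy
    exact hg0.ne' hgy
  rw [h2, add_zero, CharTwo.sub_eq_add]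

theorem ww_coeff {s : V → V → 𝒞.RR} (hs : 𝒞.Sys s) {a b : V} (hab : a < b) :
    {τ | τ < 𝒞.hV a ∧ (𝒞.ww s a b).coeff (- gen τ) ≠ 𝒞.f a b τ}.Finite := by
  obtain ⟨p, hp, hfst⟩ := 𝒞.sys_fst hs hab
  obtain ⟨F0, b0, hF0⟩ := (𝒞.rep (s a b)).2
  set x := (𝒞.rep (s a b)).1 with hx
  have hne : x.fst ≠ 0 := 𝒞.sys_ne hs hab
  classical
  set A := 𝒞.hV a with hA
  set B := 𝒞.hV b with hB
  set F := F0 ∪ {A, B} with hF
  set β := max b0 B with hβ
  have hAB : A < B := 𝒞.mono hab
  have hbd : ∀ j ∈ F, j ≤ β := by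
    intro j hj
    simp only [hF, Finset.mem_union, Finset.mem_insert, Finset.mem_singleton] at hj
    rcases hj with h | rfl | rfl
    · exact (hF0.1 j h).trans (le_max_left _ _)
    · exact hAB.le.trans (le_max_right _ _)
    · exact le_max_right _ _
  have hM : 𝒞.Mem F β x := Mem.mono 𝒞 hF0 Finset.subset_union_left (le_max_left _ _) hbd
  have hAF : A ∈ F := by simp [hF]
  have hBF : B ∈ F := by simp [hF]
  clear_value F β
  obtain ⟨-, hd, a0, o, ⟨F1, hF1⟩, ho, hw⟩ := hM
  have hpF : p.support ⊆ FT 0 F := by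
    have h1 : p = single (gen B - gen A) 1 * x.fst - 1 := by
      rw [hfst, ← mul_assoc, single_mul_single]
      rw [show gen B - gen A + (gen A - gen B) = 0 by abel, mul_one]
      change p = 1 * (1 + p) - 1
      ring
    rw [h1, sub_eq_add_neg]
    refine (support_add_subset _ _).trans (Set.union_subset ?_ ?_)
    · refine support_mul_subset' (single_sub_supp B A hBF hAF) hd.1 ?_
      intro a ha b hb
      exact (GF F).add_mem ha hb
    · rw [support_neg]; exact (Dd_one F).1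
  have hpβ : b ≤ 𝒞.p β := by
    rw [← 𝒞.p_hV b]
    exact 𝒞.p_mono (hbd B hBF)
  have hfin := 𝒞.fe_finite hab.le hpβ
  refine ((F.finite_toSet.union F1.finite_toSet).union hfin).subset ?_
  rintro τ ⟨hτA, hτ⟩
  by_contra hcon
  simp only [Set.mem_union, Finset.mem_coe, not_or, Set.mem_ofPred_eq, not_not] at hcon
  obtain ⟨⟨hτF, hτF1⟩, hτe⟩ := hcon
  apply hτ
  have hsnd : x.snd = 𝒞.theta F β x.fst + a0 + o := by
    rw [add_assoc, ← hw]; ring
  have h1 : 𝒞.ww s a b = 𝒞.theta F β x.fst / x.fst + a0 / x.fst + o / x.fst := by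
    rw [ww, ← hx, hsnd, add_div, add_div]
  have h2 : (a0 / x.fst).coeff (- gen τ) = 0 := by
    by_contra h
    have h3 := support_div_FT hF1 hd.1 ((mem_support _ _).2 h)
    have h4 := h3.1 τ (by simp [hτF, hτF1])
    rw [map_neg, co_gen_same] at h4
    norm_num at h4
  have h5 : (o / x.fst).coeff (- gen τ) = 0 := by
    by_contra h
    rw [hfst, div_eq_mul_inv, mul_inv, inv_single, neg_sub, inv_one] at h
    obtain ⟨u, hu, v₀, hv₀, huv⟩ := support_mul_subset ((mem_support _ _).2 h)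
    obtain ⟨v, hv, w, hw', rfl⟩ := support_mul_subset hv₀
    have hv' : v = _ := Set.mem_singleton_iff.1 (support_single_subset hv)
    have hu' := le_orderTop_iff_supp.1 (show ((0 : Gam J) : WithTop (Gam J)) ≤ _ from ho) u hu
    have hw'' := le_orderTop_iff_supp.1
      (show ((0 : Gam J) : WithTop (Gam J)) ≤ _ from (one_add_inv hp).2) w hw'
    simp only [hv'] at huv
    have h6 : gen B - gen A ≤ - gen τ := by
      rw [← huv]
      calc gen B - gen A = 0 + (gen B - gen A + 0) := by abel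
        _ ≤ u + (gen B - gen A + w) := by gcongr
    have h7 : gen A < gen τ := gen_lt_gen hτA
    have h8 : 0 < gen B := gen_pos B
    have h9 : gen B ≤ gen A - gen τ := by
      rw [sub_le_iff_le_add] at h6
      calc gen B ≤ - gen τ + gen A := h6
        _ = gen A - gen τ := by abel
    exact absurd (h8.trans_le h9) (not_lt.2 (sub_nonpos.2 h7.le))
  rw [h1, coeff_add, coeff_add, h2, h5, add_zero, add_zero, hfst,
    𝒞.theta_div hAF hBF hp hpF hτF, hA, hB, 𝒞.p_hV, 𝒞.p_hV]
  have h10 : 𝒞.ff a b τ = 𝒞.f a b τ := by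
    simp only [ff]
    rw [if_pos ⟨hab, hτA⟩]
  have h11 : 𝒞.fr a b (𝒞.p β) τ = 𝒞.ff b (𝒞.p β) τ := by
    simp only [fr]
    rw [if_pos hτA]
  simp only [fe, Pi.add_apply, h10, h11] at hτe
  have h6 : ∀ u : ZMod 2, u + u = 0 := fun u => CharTwo.add_self_eq_zero u
  linear_combination hτe - h6 (𝒞.f a b τ)

theorem no_sys (nontriv : ¬ ∃ g : V → J → ZMod 2, ∀ a b, a < b →
    {j | j < 𝒞.hV a ∧ 𝒞.f a b j ≠ g a j + g b j}.Finite) : ¬ ∃ s, 𝒞.Sys s := by
  rintro ⟨s, hs⟩
  apply nontriv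
  classical
  refine ⟨fun a τ => if 𝒞.p τ < a then (𝒞.ww s (𝒞.p τ) a).coeff (- gen τ) else 0, ?_⟩
  intro a b hab
  refine (𝒞.ww_coeff hs hab).subset ?_
  rintro τ ⟨hτ, h⟩
  refine ⟨hτ, fun h1 => h ?_⟩
  rw [← h1]
  have h2 : 𝒞.p τ ≤ a := 𝒞.p_le hτ.le
  have h6 : ∀ u : ZMod 2, u + u = 0 := fun u => CharTwo.add_self_eq_zero u
  rcases h2.eq_or_lt with h3 | h3
  · simp only [h3, lt_irrefl, if_false, hab, if_true, zero_add]
  · simp only [h3, if_true, h3.trans hab]
    have h4 := 𝒞.cocycle hs h3 hab (γ := - gen τ) (neg_le_neg (by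
      rcases (𝒞.le_hV_p τ).eq_or_lt with h5 | h5
      · rw [← h5]
      · exact (gen_lt_gen h5).le))
    rw [h4]
    linear_combination - h6 ((𝒞.ww s (𝒞.p τ) b).coeff (- gen τ))

end Data
end Pool.Agent.Helper89.VR
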