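import Pool.Agent.Helper89.VR.Hull

/-!
Module-theoretic part of the disproof of MP_aa9b56_al.
-/

set_option autoImplicit false

open TensorProduct

namespace Pool.Agent.Helper89.VR

theorem injective_of_pure {R M N : Type} [CommRing R] [AddCommGroup M] [Module R M]
    [AddCommGroup N] [Module R N] (g : M →ₗ[R] N)
    (h : ∀ (Y : Type) [AddCommGroup Y] [Module R Y], Function.Injective (LinearMap.lTensor Y g)) :
    Function.Injective g := by
  intro a b hab
  have h1 := h R (a₁ := (1 : R) ⊗ₜ[R] a) (a₂ := (1 : R) ⊗ₜ[R] b) (by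
    rw [LinearMap.lTensor_tmul, LinearMap.lTensor_tmul, hab])
  have h2 := congrArg (TensorProduct.lid R M) h1
  simpa using h2

theorem divides_of_pure {R M N : Type} [CommRing R] [AddCommGroup M] [Module R M]
    [AddCommGroup N] [Module R N] (g : M →ₗ[R] N)
    (h : ∀ (Y : Type) [AddCommGroup Y] [Module R Y], Function.Injective (LinearMap.lTensor Y g))
    (r : R) (x : M) (y : N) (hy : r • y = g x) : ∃ z : M, r • z = x := by
  have h1 : (1 : R ⧸ Ideal.span {r}) ⊗ₜ[R] x = 0 := by
    apply h (R ⧸ Ideal.span {r})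
    rw [LinearMap.lTensor_tmul, map_zero, ← hy, ← TensorProduct.smul_tmul]
    have h2 : r • (1 : R ⧸ Ideal.span {r}) = 0 := by
      rw [Algebra.smul_def, mul_one]
      exact Ideal.Quotient.eq_zero_iff_mem.2 (Ideal.mem_span_singleton_self r)
    rw [h2, TensorProduct.zero_tmul]
  have h3 := congrArg (TensorProduct.quotTensorEquivQuotSMul M (Ideal.span {r})) h1
  rw [map_zero] at h3
  rw [TensorProduct.quotTensorEquivQuotSMul_mk_one_tmul, Submodule.Quotient.mk_eq_zero, Submodule.ideal_span_singleton_smul,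
    Submodule.mem_smul_pointwise_iff_exists] at h3
  obtain ⟨z, -, hz⟩ := h3
  exact ⟨z, hz⟩

theorem isUnit_of_notMem {R : Type} [CommRing R] (hR : ∀ I J : Ideal R, I ≤ J ∨ J ≤ I)
    (P : Ideal R) (hP : P.IsMaximal) {c : R} (hc : c ∉ P) : IsUnit c := by
  rcases hR (Ideal.span {c}) P with h | h
  · exact absurd (h (Ideal.mem_span_singleton_self c)) hc
  · rw [← Ideal.span_singleton_eq_top]
    by_contra h1
    have := hP.eq_of_le h1 h
    rw [this] at hc
    exact hc (Ideal.mem_span_singleton_self c)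

/-- solvability of `a y = x` in an injective module -/
theorem exists_smul_eq {R N : Type} [CommRing R] [AddCommGroup N] [Module R N]
    (hN : Module.Injective R N) (a : R) (x : N) (h : ∀ c : R, c * a = 0 → c • x = 0) :
    ∃ y : N, a • y = x := by
  let α : R →ₗ[R] R := LinearMap.toSpanSingleton R R a
  let ξ : R →ₗ[R] N := LinearMap.toSpanSingleton R N x
  let f : (R ⧸ LinearMap.ker α) →ₗ[R] R := (LinearMap.ker α).liftQ α le_rfl
  have hf : Function.Injective f := by
    rw [← LinearMap.ker_eq_bot]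
    exact Submodule.ker_liftQ_eq_bot _ _ _ le_rfl
  have hle : LinearMap.ker α ≤ LinearMap.ker ξ := by
    intro c hc
    rw [LinearMap.mem_ker] at hc ⊢
    exact h c (by simpa [α] using hc)
  let g : (R ⧸ LinearMap.ker α) →ₗ[R] N := (LinearMap.ker α).liftQ ξ hle
  obtain ⟨h', hh⟩ := hN.out f hf g
  have h1 := hh (Submodule.Quotient.mk 1)
  refine ⟨h' 1, ?_⟩
  rw [← map_smul, smul_eq_mul, mul_one]
  have h2 : f (Submodule.Quotient.mk 1) = a := by
    show (LinearMap.ker α).liftQ α le_rfl (Submodule.Quotient.mk 1) = a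
    rw [Submodule.liftQ_apply]
    simp [α]
  have h3 : g (Submodule.Quotient.mk 1) = x := by
    show (LinearMap.ker α).liftQ ξ hle (Submodule.Quotient.mk 1) = x
    rw [Submodule.liftQ_apply]
    simp [ξ]
  rw [h2, h3] at h1
  exact h1

/-- The statement refuted. -/
def Conj : Prop :=
  ∀ (R : Type) [CommRing R], (∀ I J : Ideal R, I ≤ J ∨ J ≤ I) →
  ∀ (N : Type) [AddCommGroup N] [Module R N],
    Nontrivial N →
    (∀ A B : Submodule R N, IsCompl A B → A = ⊥ ∨ B = ⊥) →
    (∀ (X : Type) [AddCommGroup X] [Module R X] (g : N →ₗ[R] X),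
      (∀ (Y : Type) [AddCommGroup Y] [Module R Y],
        Function.Injective (LinearMap.lTensor Y g)) →
      ∃ h : X →ₗ[R] N, h ∘ₗ g = LinearMap.id) →
    ∃ (M : Type) (_ : AddCommGroup M) (_ : Module R M),
      (∀ A B : Submodule R M, A ≤ B ∨ B ≤ A) ∧
      ∃ i : M →ₗ[R] N,
        (∀ (Y : Type) [AddCommGroup Y] [Module R Y],
          Function.Injective (LinearMap.lTensor Y i)) ∧
        ∀ (X : Type) [AddCommGroup X] [Module R X] (g : N →ₗ[R] X),
          (∀ (Y : Type) [AddCommGroup Y] [Module R Y],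
            Function.Injective (LinearMap.lTensor Y (g ∘ₗ i))) →
          (∀ (Y : Type) [AddCommGroup Y] [Module R Y],
            Function.Injective (LinearMap.lTensor Y g))

theorem not_conj_of_ring {V : Type} [LinearOrder V] (R : Type) [CommRing R]
    (hR : ∀ I J : Ideal R, I ≤ J ∨ J ≤ I) (P : Ideal R) (hP : P.IsMaximal) (al : V → R)
    (hal : ∀ v, al v ≠ 0) (hdvd : ∀ v w, v < w → ∃ e ∈ P, al w = al v * e)
    (hs : ¬ ∃ s : V → V → R,
      (∀ a b c, a < b → b < c → ∃ c' ∈ P, s a b * s b c - s a c = al c * c') ∧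
      (∀ a b, a < b → ∃ c' ∈ P, al a * s a b - al b = al b * c')) : ¬ Conj := by
  intro H
  obtain ⟨N, _, _, x, hx0, hPx, hess, hNinj⟩ := exists_hull R P
  have hNt : Nontrivial N := ⟨⟨x, 0, hx0⟩⟩
  have hmemx : ∀ A : Submodule R N, A ≠ ⊥ → x ∈ A := by
    intro A hA
    obtain ⟨b, hb, hb0⟩ := (Submodule.ne_bot_iff A).1 hA
    obtain ⟨r, hr⟩ := hess b hb0
    exact hr ▸ A.smul_mem r hb
  obtain ⟨M, _, _, hM, i, hi, hmin⟩ := H R hR N hNt (by
    intro A B hAB
    by_contra h
    rw [not_or] at h
    have h1 : x ∈ A ⊓ B := ⟨hmemx A h.1, hmemx B h.2⟩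
    rw [hAB.inf_eq_bot] at h1
    exact hx0 ((Submodule.mem_bot R).1 h1)) (by
    intro X _ _ g hg
    obtain ⟨h, hh⟩ := hNinj.out g (injective_of_pure g hg) LinearMap.id
    exact ⟨h, LinearMap.ext hh⟩)
  have hiinj := injective_of_pure i hi
  -- `M` is nonzero
  obtain ⟨m, hm⟩ : ∃ m : M, m ≠ 0 := by
    by_contra hcon
    push Not at hcon
    have hsub : Subsingleton M := ⟨fun a b => by rw [hcon a, hcon b]⟩
    have h1 := hmin PUnit (0 : N →ₗ[R] PUnit) (by
      intro Y _ _
      have : Subsingleton (Y ⊗[R] M) := by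
        refine ⟨fun a b => ?_⟩
        have h0 : ∀ a : Y ⊗[R] M, a = 0 := by
          intro a
          induction a with
          | zero => rfl
          | tmul y m => rw [hcon m, TensorProduct.tmul_zero]
          | add a b ha hb => rw [ha, hb, add_zero]
        rw [h0 a, h0 b]
      exact Function.injective_of_subsingleton _)
    exact hx0 (injective_of_pure _ h1 (by simp))
  obtain ⟨r, hr⟩ := hess (i m) (by rwa [Ne, map_eq_zero_iff i hiinj])
  set x' : M := r • m with hx'
  have hix' : i x' = x := by rw [hx', map_smul, hr]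
  have hx'0 : x' ≠ 0 := by
    intro h
    rw [h, map_zero] at hix'
    exact hx0 hix'.symm
  have hPx' : ∀ r ∈ P, r • x' = 0 := by
    intro r hr
    apply hiinj
    rw [map_smul, hix', map_zero, hPx r hr]
  -- the elements `y v`
  have hy : ∀ v, ∃ y : M, al v • y = x' := by
    intro v
    obtain ⟨y, hy⟩ := exists_smul_eq hNinj (al v) x (by
      intro c hc
      by_cases hcP : c ∈ P
      · exact hPx c hcP
      · exfalso
        have := isUnit_of_notMem hR P hP hcP
        exact hal v ((this.mul_right_eq_zero).1 hc))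
    exact divides_of_pure i hi (al v) x' y (by rw [hy, hix'])
  choose y hy using hy
  have hann : ∀ (v : V) (r : R), r • y v = 0 → ∃ c' ∈ P, r = al v * c' := by
    intro v r hr
    rcases hR (Ideal.span {r}) (Ideal.span {al v}) with h | h
    · obtain ⟨c, hc⟩ := Ideal.mem_span_singleton'.1 (h (Ideal.mem_span_singleton_self r))
      refine ⟨c, ?_, by rw [← hc, mul_comm]⟩
      by_contra hcP
      obtain ⟨u, hu⟩ := isUnit_of_notMem hR P hP hcP
      apply hx'0
      have h1 : c • x' = 0 := by rw [← hy v, smul_smul, hc, hr]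
      have h2 : ((u⁻¹ : Rˣ) : R) • (c • x') = x' := by
        rw [smul_smul, ← hu, Units.inv_mul, one_smul]
      rw [← h2, h1, smul_zero]
    · exfalso
      obtain ⟨c, hc⟩ := Ideal.mem_span_singleton'.1 (h (Ideal.mem_span_singleton_self (al v)))
      apply hx'0
      rw [← hy v, ← hc, mul_smul, hr, smul_zero]
  have hss : ∀ a b, ∃ s : R, a < b → y a = s • y b := by
    intro a b
    by_cases hab : a < b
    · rcases hM (Submodule.span R {y a}) (Submodule.span R {y b}) with h | h
      · obtain ⟨s, hs⟩ := Submodule.mem_span_singleton.1 (h (Submodule.mem_span_singleton_self (y a)))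
        exact ⟨s, fun _ => hs.symm⟩
      · exfalso
        obtain ⟨r, hr⟩ := Submodule.mem_span_singleton.1 (h (Submodule.mem_span_singleton_self (y b)))
        obtain ⟨e, he, hab'⟩ := hdvd a b hab
        apply hx'0
        rw [← hy b, ← hr, hab', smul_smul, show al a * e * r = (r * e) * al a by ring, mul_smul,
          hy a, mul_smul, hPx' e he, smul_zero]
    · exact ⟨0, fun h => absurd h hab⟩
  choose s hss using hss
  refine hs ⟨s, ?_, ?_⟩
  · intro a b c hab hbc
    apply hann
    rw [sub_smul, mul_smul, ← hss b c hbc, ← hss a b hab, ← hss a c (hab.trans hbc), sub_self]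
  · intro a b hab
    apply hann
    rw [sub_smul, mul_smul, ← hss a b hab, hy, hy, sub_self]

end Pool.Agent.Helper89.VR
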