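import Pool.Agent.Helper89.VR.Twist

/-!
The twisted valuation ring (problem MP_aa9b56_al).
-/

set_option autoImplicit false
set_option linter.unusedSectionVars false

open HahnSeries

noncomputable section

namespace Pool.Agent.Helper89.VR

section
variable {J : Type} [LinearOrder J]

theorem Dd_mono {F F' : Finset J} (h : F ⊆ F') {d : HH J} (hd : Dd F d) : Dd F' d :=
  ⟨hd.1.trans (FT_mono h), hd.2⟩

theorem Dd_mul {F : Finset J} {d e : HH J} (hd : Dd F d) (he : Dd F e) : Dd F (d * e) := by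
  refine ⟨support_mul_subset' hd.1 he.1 (fun a ha b hb => by simpa using FT_add ha hb), ?_⟩
  exact (add_nonneg hd.2 he.2).trans orderTop_add_le_mul

theorem Dd_add {F : Finset J} {d e : HH J} (hd : Dd F d) (he : Dd F e) : Dd F (d + e) :=
  ⟨(support_add_subset _ _).trans (Set.union_subset hd.1 he.1),
    le_trans (le_min hd.2 he.2) min_orderTop_le_orderTop_add⟩

theorem Dd_neg {F : Finset J} {d : HH J} (hd : Dd F d) : Dd F (-d) :=
  ⟨by rw [support_neg]; exact hd.1, by rw [orderTop_neg]; exact hd.2⟩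

theorem Dd_zero (F : Finset J) : Dd F (0 : HH J) := ⟨by simp, by simp⟩

theorem Dd_one (F : Finset J) : Dd F (1 : HH J) := by
  refine ⟨?_, by simp⟩
  rw [support_one]
  rintro _ rfl
  exact (GF F).zero_mem

end

namespace Data
variable {V J : Type} [LinearOrder V] [WellFoundedLT V] [LinearOrder J] [WellFoundedLT J]
  (𝒞 : Data V J)

/-- membership with given witnesses -/
def Mem (F : Finset J) (b : J) (x : TrivSqZeroExt (HH J) (HH J)) : Prop :=
  (∀ j ∈ F, j ≤ b) ∧ Dd F x.fst ∧ x.snd - 𝒞.theta F b x.fst ∈ W J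

theorem Mem.mono {F F' : Finset J} {b b' : J} {x : TrivSqZeroExt (HH J) (HH J)}
    (h : 𝒞.Mem F b x) (hF : F ⊆ F') (hb : b ≤ b') (hF' : ∀ j ∈ F', j ≤ b') : 𝒞.Mem F' b' x := by
  obtain ⟨h1, h2, h3⟩ := h
  refine ⟨hF', Dd_mono hF h2, ?_⟩
  rw [𝒞.theta_subset hF b' h2.1]
  have h4 := 𝒞.theta_base h1 hb h2
  have h5 : x.snd - 𝒞.theta F b' x.fst =
      (x.snd - 𝒞.theta F b x.fst) - (𝒞.theta F b' x.fst + 𝒞.theta F b x.fst)
        + (𝒞.theta F b x.fst + 𝒞.theta F b x.fst) := by ring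
  rw [h5, CharTwo.add_self_eq_zero, add_zero]
  exact (W J).sub_mem h3 h4

theorem Mem.common {F F' : Finset J} {b b' : J} {x y : TrivSqZeroExt (HH J) (HH J)}
    (hx : 𝒞.Mem F b x) (hy : 𝒞.Mem F' b' y) :
    𝒞.Mem (F ∪ F') (max b b') x ∧ 𝒞.Mem (F ∪ F') (max b b') y := by
  have h : ∀ j ∈ F ∪ F', j ≤ max b b' := by
    intro j hj
    rcases Finset.mem_union.1 hj with h | h
    · exact (hx.1 j h).trans (le_max_left _ _)
    · exact (hy.1 j h).trans (le_max_right _ _)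
  exact ⟨Mem.mono 𝒞 hx Finset.subset_union_left (le_max_left _ _) h,
    Mem.mono 𝒞 hy Finset.subset_union_right (le_max_right _ _) h⟩

theorem theta_one (F : Finset J) (b : J) : 𝒞.theta F b 1 = 0 := by
  have h := 𝒞.theta_mul F b 1 1
  simp only [mul_one, one_mul] at h
  rwa [left_eq_add] at h

theorem theta_zero (F : Finset J) (b : J) : 𝒞.theta F b 0 = 0 := by
  have h := 𝒞.theta_add F b 0 0
  simp only [add_zero] at h
  rwa [left_eq_add] at h

variable [Nonempty J]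

/-- The ring `R̃`. -/
def Rt : Subring (TrivSqZeroExt (HH J) (HH J)) where
  carrier := {x | ∃ F b, 𝒞.Mem F b x}
  mul_mem' := by
    rintro x y ⟨F, b, hx⟩ ⟨F', b', hy⟩
    obtain ⟨hx, hy⟩ := Mem.common 𝒞 hx hy
    refine ⟨_, _, hx.1, ?_, ?_⟩
    · rw [TrivSqZeroExt.fst_mul]
      exact Dd_mul hx.2.1 hy.2.1
    · rw [TrivSqZeroExt.fst_mul, TrivSqZeroExt.snd_mul, theta_mul]
      have h1 := mul_mem_W hx.2.1 hy.2.2
      have h2 := mul_mem_W hy.2.1 hx.2.2
      convert (W J).add_mem h1 h2 using 1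
      simp only [smul_eq_mul, MulOpposite.smul_eq_mul_unop, MulOpposite.unop_op]
      ring
  one_mem' := by
    obtain ⟨b⟩ := ‹Nonempty J›
    refine ⟨∅, b, by simp, ?_, ?_⟩
    · rw [TrivSqZeroExt.fst_one]
      exact Dd_one _
    · rw [TrivSqZeroExt.fst_one, theta_one, TrivSqZeroExt.snd_one, sub_zero]
      exact (W J).zero_mem
  add_mem' := by
    rintro x y ⟨F, b, hx⟩ ⟨F', b', hy⟩
    obtain ⟨hx, hy⟩ := Mem.common 𝒞 hx hy
    refine ⟨_, _, hx.1, ?_, ?_⟩
    · rw [TrivSqZeroExt.fst_add]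
      exact Dd_add hx.2.1 hy.2.1
    · rw [TrivSqZeroExt.fst_add, TrivSqZeroExt.snd_add, theta_add]
      convert (W J).add_mem hx.2.2 hy.2.2 using 1
      ring
  zero_mem' := by
    obtain ⟨b⟩ := ‹Nonempty J›
    refine ⟨∅, b, by simp, ?_, ?_⟩
    · rw [TrivSqZeroExt.fst_zero]
      exact Dd_zero _
    · rw [TrivSqZeroExt.fst_zero, theta_zero, TrivSqZeroExt.snd_zero, sub_zero]
      exact (W J).zero_mem
  neg_mem' := by
    rintro x ⟨F, b, hx⟩
    refine ⟨F, b, hx.1, ?_, ?_⟩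
    · rw [TrivSqZeroExt.fst_neg]
      exact Dd_neg hx.2.1
    · have h0 : 𝒞.theta F b (-x.fst) = - 𝒞.theta F b x.fst := by
        have h := 𝒞.theta_add F b x.fst (-x.fst)
        rw [add_neg_cancel, theta_zero] at h
        exact (neg_eq_of_add_eq_zero_right h.symm).symm
      rw [TrivSqZeroExt.fst_neg, TrivSqZeroExt.snd_neg, h0]
      convert (W J).neg_mem hx.2.2 using 1
      ring

theorem nonneg_fst (x : 𝒞.Rt) : 0 ≤ (x : TrivSqZeroExt (HH J) (HH J)).fst.orderTop := by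
  obtain ⟨F, b, hx⟩ := x.2
  exact hx.2.1.2

/-- The ideal `0 × 𝒪`. -/
def nn : Ideal 𝒞.Rt where
  carrier := {x | (x : TrivSqZeroExt (HH J) (HH J)).fst = 0 ∧
    0 ≤ (x : TrivSqZeroExt (HH J) (HH J)).snd.orderTop}
  zero_mem' := by simp
  add_mem' := by
    rintro x y ⟨hx, hx'⟩ ⟨hy, hy'⟩
    refine ⟨by simp [hx, hy], ?_⟩
    simpa using le_trans (le_min hx' hy') min_orderTop_le_orderTop_add
  smul_mem' := by
    rintro c x ⟨hx, hx'⟩
    refine ⟨by simp [hx], ?_⟩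
    simp only [smul_eq_mul, Subring.coe_mul, TrivSqZeroExt.snd_mul, hx, MulOpposite.op_zero,
      zero_smul, add_zero]
    exact (add_nonneg (𝒞.nonneg_fst c) hx').trans orderTop_add_le_mul

/-- The ring `R`. -/
abbrev RR : Type := 𝒞.Rt ⧸ 𝒞.nn

end Data

end Pool.Agent.Helper89.VR
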