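import Pool.Agent.Helper89.VR.Val

/-!
The elements `al v` and the non-existence of the multiplicative system (problem MP_aa9b56_al).
-/

set_option autoImplicit false
set_option linter.unusedSectionVars false

open HahnSeries

noncomputable section

namespace Pool.Agent.Helper89.VR

theorem single_neg_gen_supp {J : Type} [LinearOrder J] (j : J) :
    (single (-gen j) (1 : ZMod 2) : HH J).support ⊆ FT (-1) {j} := by
  refine support_single_subset.trans ?_
  rw [Set.singleton_subset_iff]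
  refine ⟨fun i hi => ?_, by rw [map_neg, deg_gen]⟩
  rw [map_neg, co_gen_ne, neg_zero]
  rintro rfl
  exact hi (by simp)

theorem single_sub_supp {J : Type} [LinearOrder J] (i j : J) {F : Finset J} (hi : i ∈ F)
    (hj : j ∈ F) : (single (gen i - gen j) (1 : ZMod 2) : HH J).support ⊆ FT 0 F := by
  refine support_single_subset.trans ?_
  rw [Set.singleton_subset_iff]
  refine ⟨fun k hk => ?_, by rw [map_sub, deg_gen, deg_gen, sub_self]⟩
  rw [map_sub, co_gen_ne, co_gen_ne, sub_zero]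
  · rintro rfl; exact hk hj
  · rintro rfl; exact hk hi

theorem one_add_inv {J : Type} [LinearOrder J] {p : HH J} (hp : 0 < p.orderTop) :
    1 + p ≠ 0 ∧ 0 ≤ ((1 + p)⁻¹).orderTop := by
  have h1 : (1 + p).coeff 0 = 1 := by
    rw [coeff_add, coeff_eq_zero_of_lt_orderTop (x := p) (by exact_mod_cast hp), add_zero]
    simp
  have h2 : 1 + p ≠ 0 := by
    intro h
    rw [h] at h1
    simp at h1
  refine ⟨h2, ?_⟩
  have h3 := orderTop_div_nonneg (y := 1) h2 (by
    rw [orderTop_one]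
    exact orderTop_le_of_coeff_ne_zero (by rw [h1]; exact one_ne_zero))
  rwa [one_div] at h3

namespace Data
variable {V J : Type} [LinearOrder V] [WellFoundedLT V] [LinearOrder J] [WellFoundedLT J]
  (𝒞 : Data V J) [Nonempty J]

/-- `al v` upstairs -/
def at' (v : V) : 𝒞.Rt :=
  ⟨TrivSqZeroExt.inr (single (-gen (𝒞.hV v)) 1), {𝒞.hV v}, 𝒞.hV v, by simp, by
    simpa using Dd_zero _, by
    rw [TrivSqZeroExt.fst_inr, TrivSqZeroExt.snd_inr, theta_zero, sub_zero]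
    exact mem_W_of_fin (single_neg_gen_supp _)⟩

theorem at'_fst (v : V) : (𝒞.at' v).1.fst = 0 := rfl

theorem at'_snd (v : V) : (𝒞.at' v).1.snd = single (-gen (𝒞.hV v)) 1 := rfl

/-- `al v` -/
def al (v : V) : 𝒞.RR := Ideal.Quotient.mk _ (𝒞.at' v)

theorem al_ne_zero (v : V) : 𝒞.al v ≠ 0 := by
  rw [al, Ne, Ideal.Quotient.eq_zero_iff_mem]
  rintro ⟨-, h⟩
  rw [at'_snd, orderTop_single (by simp)] at h
  have h1 : (0 : Gam J) ≤ -gen (𝒞.hV v) := by exact_mod_cast h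
  exact absurd h1 (not_le.2 (neg_lt_zero.2 (gen_pos _)))

theorem al_dvd {v w : V} (h : v < w) : ∃ e ∈ 𝒞.PP, 𝒞.al w = 𝒞.al v * e := by
  have hlt : 0 < gen (𝒞.hV v) - gen (𝒞.hV w) := sub_pos.2 (gen_lt_gen (𝒞.mono h))
  have hd : Dd {𝒞.hV v, 𝒞.hV w} (single (gen (𝒞.hV v) - gen (𝒞.hV w)) (1 : ZMod 2) : HH J) := by
    refine ⟨single_sub_supp _ _ (by simp) (by simp), ?_⟩
    rw [orderTop_single (by simp)]
    exact_mod_cast hlt.le
  have hb : ∀ j ∈ ({𝒞.hV v, 𝒞.hV w} : Finset J), j ≤ 𝒞.hV w := by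
    intro j hj
    simp only [Finset.mem_insert, Finset.mem_singleton] at hj
    rcases hj with rfl | rfl
    · exact (𝒞.mono h).le
    · exact le_rfl
  refine ⟨Ideal.Quotient.mk _ ⟨_, 𝒞.mk_mem hb hd (W J).zero_mem⟩, ?_, ?_⟩
  · rw [mk_mem_PP]
    simp only [TrivSqZeroExt.fst_add, TrivSqZeroExt.fst_inl, TrivSqZeroExt.fst_inr, add_zero]
    rw [orderTop_single (by simp)]
    exact_mod_cast hlt
  · rw [al, al, ← map_mul]
    congr 1
    apply Subtype.ext
    apply TrivSqZeroExt.ext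
    · rw [Subring.coe_mul, TrivSqZeroExt.fst_mul, at'_fst, at'_fst, zero_mul]
    · rw [Subring.coe_mul, TrivSqZeroExt.snd_mul, at'_fst, at'_snd, at'_snd]
      simp only [zero_smul, zero_add, TrivSqZeroExt.fst_add, TrivSqZeroExt.fst_inl,
        TrivSqZeroExt.fst_inr, add_zero, MulOpposite.smul_eq_mul_unop, MulOpposite.unop_op,
        single_mul_single, mul_one]
      rw [show -gen (𝒞.hV v) + (gen (𝒞.hV v) - gen (𝒞.hV w)) = -gen (𝒞.hV w) by abel]

/-- The key condition. -/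
def Sys (s : V → V → 𝒞.RR) : Prop :=
  (∀ a b c, a < b → b < c → ∃ c' ∈ 𝒞.PP, s a b * s b c - s a c = 𝒞.al c * c') ∧
  (∀ a b, a < b → ∃ c' ∈ 𝒞.PP, 𝒞.al a * s a b - 𝒞.al b = 𝒞.al b * c')

/-- a representative -/
def rep (x : 𝒞.RR) : 𝒞.Rt := (Ideal.Quotient.mk_surjective x).choose

theorem mk_rep (x : 𝒞.RR) : Ideal.Quotient.mk _ (𝒞.rep x) = x :=
  (Ideal.Quotient.mk_surjective x).choose_spec

/-- structure of the first components -/
theorem sys_fst {s : V → V → 𝒞.RR} (hs : 𝒞.Sys s) {a b : V} (hab : a < b) :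
    ∃ p : HH J, 0 < p.orderTop ∧ (𝒞.rep (s a b)).1.fst =
      single (gen (𝒞.hV a) - gen (𝒞.hV b)) 1 * (1 + p) := by
  obtain ⟨c', hc', h⟩ := hs.2 a b hab
  obtain ⟨c, rfl⟩ := Ideal.Quotient.mk_surjective c'
  rw [mk_mem_PP] at hc'
  conv_lhs at h => rw [← 𝒞.mk_rep (s a b)]
  rw [al, al, ← map_mul, ← map_mul, ← map_sub, Ideal.Quotient.eq] at h
  obtain ⟨-, h2⟩ := h
  simp only [AddSubgroupClass.coe_sub, Subring.coe_mul, TrivSqZeroExt.snd_sub, TrivSqZeroExt.snd_mul,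
    at'_fst, at'_snd, zero_smul, zero_add, MulOpposite.smul_eq_mul_unop, MulOpposite.unop_op] at h2
  set d := (𝒞.rep (s a b)).1.fst
  set o := single (-gen (𝒞.hV a)) 1 * d - single (-gen (𝒞.hV b)) 1 -
    single (-gen (𝒞.hV b)) 1 * c.1.fst with ho
  refine ⟨c.1.fst + single (gen (𝒞.hV b)) 1 * o, ?_, ?_⟩
  · refine lt_of_lt_of_le (lt_min hc' ?_) min_orderTop_le_orderTop_add
    rw [mul_comm]
    refine orderTop_mul_pos h2 ?_
    rw [orderTop_single (by simp)]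
    exact_mod_cast gen_pos _
  · have h3 : single (gen (𝒞.hV a) - gen (𝒞.hV b)) (1 : ZMod 2) = single (gen (𝒞.hV a)) 1 *
      single (-gen (𝒞.hV b)) 1 := by
      rw [single_mul_single, mul_one, sub_eq_add_neg]
    have h4 : single (gen (𝒞.hV a)) (1 : ZMod 2) * single (-gen (𝒞.hV a)) 1 = 1 := by
      rw [single_mul_single, mul_one, add_neg_cancel]; rfl
    have h5 : single (-gen (𝒞.hV b)) (1 : ZMod 2) * single (gen (𝒞.hV b)) 1 = 1 := by
      rw [single_mul_single, mul_one, neg_add_cancel]; rfl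
    rw [h3]
    have h6 : single (-gen (𝒞.hV b)) (1 : ZMod 2) * (1 + (c.1.fst + single (gen (𝒞.hV b)) 1 * o)) =
      single (-gen (𝒞.hV a)) 1 * d := by
      rw [mul_add, mul_add, ← mul_assoc, h5, ho]
      ring
    rw [mul_assoc, h6, ← mul_assoc, h4, one_mul]


/-- the quotient -/
def ww (s : V → V → 𝒞.RR) (a b : V) : HH J := (𝒞.rep (s a b)).1.snd / (𝒞.rep (s a b)).1.fst

theorem sys_ne {s : V → V → 𝒞.RR} (hs : 𝒞.Sys s) {a b : V} (hab : a < b) :
    (𝒞.rep (s a b)).1.fst ≠ 0 := by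
  obtain ⟨p, hp, h⟩ := 𝒞.sys_fst hs hab
  rw [h]
  exact mul_ne_zero (by simp) (one_add_inv hp).1

theorem cocycle {s : V → V → 𝒞.RR} (hs : 𝒞.Sys s) {a b c : V} (hab : a < b) (hbc : b < c) {γ : Gam J}
    (hγ : γ ≤ - gen (𝒞.hV a)) :
    (𝒞.ww s a b).coeff γ = (𝒞.ww s a c).coeff γ + (𝒞.ww s b c).coeff γ := by
  obtain ⟨c', hc', h⟩ := hs.1 a b c hab hbc
  obtain ⟨c', rfl⟩ := Ideal.Quotient.mk_surjective c'
  rw [mk_mem_PP] at hc'
  conv_lhs at h => rw [← 𝒞.mk_rep (s a b), ← 𝒞.mk_rep (s b c), ← 𝒞.mk_rep (s a c)]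
  rw [al, ← map_mul, ← map_mul, ← map_sub, Ideal.Quotient.eq] at h
  obtain ⟨h1, h2⟩ := h
  simp only [AddSubgroupClass.coe_sub, Subring.coe_mul, TrivSqZeroExt.snd_sub, TrivSqZeroExt.snd_mul,
    TrivSqZeroExt.fst_sub, TrivSqZeroExt.fst_mul,
    at'_fst, at'_snd, zero_add, zero_mul, sub_zero, MulOpposite.smul_eq_mul_unop,
    MulOpposite.unop_op, smul_eq_mul] at h1 h2
  obtain ⟨p, hp, h⟩ := 𝒞.sys_fst hs (hab.trans hbc)
  have hx0 := 𝒞.sys_ne hs hab
  have hy0 := 𝒞.sys_ne hs hbc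
  have hz0 := 𝒞.sys_ne hs (hab.trans hbc)
  simp only [ww]
  set x := 𝒞.rep (s a b)
  set y := 𝒞.rep (s b c)
  set z := 𝒞.rep (s a c)
  set E := x.1.fst * y.1.snd + x.1.snd * y.1.fst - z.1.snd with hE
  have key : E / z.1.fst = y.1.snd / y.1.fst + x.1.snd / x.1.fst - z.1.snd / z.1.fst := by
    have h3 : z.1.fst = x.1.fst * y.1.fst := (sub_eq_zero.1 h1).symm
    rw [hE, h3]
    field_simp
  have hEo : ((-gen (𝒞.hV c) : Gam J) : WithTop (Gam J)) < E.orderTop := by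
    have h4 : E = (E - single (-gen (𝒞.hV c)) 1 * c'.1.fst) + single (-gen (𝒞.hV c)) 1 * c'.1.fst := by
      ring
    rw [h4]
    refine lt_of_lt_of_le (lt_min ?_ ?_) min_orderTop_le_orderTop_add
    · refine lt_of_lt_of_le ?_ h2
      exact_mod_cast (neg_lt_zero.2 (gen_pos _))
    · rw [lt_orderTop_iff_supp]
      intro g hg
      obtain ⟨u, hu, v, hv, rfl⟩ := support_mul_subset hg
      have hu' : u = _ := Set.mem_singleton_iff.1 (support_single_subset hu)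
      have hv' : 0 < v := (lt_orderTop_iff_supp.1 (show ((0 : Gam J) : WithTop (Gam J)) < _ from hc')) v hv
      rw [hu']
      exact lt_add_of_pos_right _ hv'
  have hq : ((-gen (𝒞.hV a) : Gam J) : WithTop (Gam J)) < (E / z.1.fst).orderTop := by
    rw [h, div_eq_mul_inv, mul_inv, inv_single, neg_sub, inv_one, lt_orderTop_iff_supp]
    intro g hg
    obtain ⟨u, hu, v₀, hv₀, rfl⟩ := support_mul_subset hg
    obtain ⟨v, hv, w, hw, rfl⟩ := support_mul_subset hv₀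
    have hv' : v = _ := Set.mem_singleton_iff.1 (support_single_subset hv)
    have hu' := lt_orderTop_iff_supp.1 hEo u hu
    have hw' := le_orderTop_iff_supp.1 (show ((0 : Gam J) : WithTop (Gam J)) ≤ _ from (one_add_inv hp).2) w hw
    rw [hv']
    calc -gen (𝒞.hV a) = -gen (𝒞.hV c) + (gen (𝒞.hV c) - gen (𝒞.hV a) + 0) := by abel
      _ < u + (gen (𝒞.hV c) - gen (𝒞.hV a) + w) := by
        exact add_lt_add_of_lt_of_le hu' (by gcongr)
  have h5 : (E / z.1.fst).coeff γ = 0 :=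
    coeff_eq_zero_of_lt_orderTop (lt_of_le_of_lt (by exact_mod_cast hγ) hq)
  rw [key, coeff_sub, coeff_add, sub_eq_zero] at h5
  have h6 : ∀ u : ZMod 2, u + u = 0 := fun u => CharTwo.add_self_eq_zero u
  rw [← h5]
  linear_combination - h6 ((y.1.snd / y.1.fst).coeff γ)

end Data
end Pool.Agent.Helper89.VR
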