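import Pool.Agent.Helper89.VR.Hahn

/-!
The twisting derivation for the valuation ring (problem MP_aa9b56_al).
-/

set_option autoImplicit false
set_option linter.unusedSectionVars false

open HahnSeries

noncomputable section

namespace Pool.Agent.Helper89.VR

/-- The Hahn series field. -/
abbrev HH (J : Type) [LinearOrder J] := HahnSeries (Gam J) (ZMod 2)

instance (J : Type) [LinearOrder J] : CharP (HH J) 2 :=
  charP_of_injective_ringHom (C_injective (Γ := Gam J) (R := ZMod 2)) 2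

section
variable {J : Type} [LinearOrder J]

/-- the derivation `∂_j` -/
def D (j : J) (x : HH J) : HH J := der ((Int.castAddHom (ZMod 2)).comp (co j)) x

theorem coeff_D (j : J) (x : HH J) (γ : Gam J) :
    (D j x).coeff γ = ((co j γ : ℤ) : ZMod 2) * x.coeff γ := rfl

theorem support_D (j : J) (x : HH J) : (D j x).support ⊆ x.support := support_der _ _

theorem D_add (j : J) (x y : HH J) : D j (x + y) = D j x + D j y := der_add _ _ _

theorem D_mul (j : J) (x y : HH J) : D j (x * y) = D j x * y + x * D j y := der_mul _ _ _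

theorem D_eq_zero {F : Finset J} {n : ℤ} {x : HH J} (hx : x.support ⊆ FT n F) {j : J}
    (hj : j ∉ F) : D j x = 0 := by
  ext γ
  rw [coeff_D, coeff_zero]
  by_cases h : x.coeff γ = 0
  · rw [h, mul_zero]
  · rw [(hx h).1 j hj, Int.cast_zero, zero_mul]

theorem sum_D {F : Finset J} {x : HH J} (hx : x.support ⊆ FT 0 F) : ∑ j ∈ F, D j x = 0 := by
  ext γ
  rw [coeff_sum, coeff_zero]
  simp only [coeff_D]
  rw [← Finset.sum_mul]
  by_cases h : x.coeff γ = 0
  · rw [h, mul_zero]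
  · rw [← Int.cast_sum, deg_eq_sum (hx h), Int.cast_zero, zero_mul]

/-- `j ↦ - gen j` as an order embedding -/
def T : J ↪o Gam J := OrderEmbedding.ofStrictMono (fun j => - gen j) (fun _ _ h => by
  exact neg_lt_neg (gen_lt_gen h))

theorem T_apply (j : J) : T j = - gen j := rfl

variable [WellFoundedLT J]

/-- the series `∑ φ j t^{-h_j}` -/
def ser (φ : J → ZMod 2) : HH J :=
  embDomain T
    { coeff := φ
      isPWO_support' := (Set.isPWO_iff_isWF).2 (Set.IsWF.mono
        (t := (Set.univ : Set J)) (Set.isWF_univ_iff.2 inferInstance) (Set.subset_univ _)) }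

theorem coeff_ser (φ : J → ZMod 2) (j : J) : (ser φ).coeff (- gen j) = φ j :=
  embDomain_coeff (f := T) (a := j)

theorem coeff_ser_of_ne (φ : J → ZMod 2) {γ : Gam J} (h : ∀ j, γ ≠ - gen j) :
    (ser φ).coeff γ = 0 :=
  embDomain_of_notMem_range (by rintro ⟨j, rfl⟩; exact h j rfl)

theorem mem_support_ser {φ : J → ZMod 2} {γ : Gam J} (h : γ ∈ (ser φ).support) :
    ∃ j, φ j ≠ 0 ∧ γ = - gen j := by
  by_cases h1 : ∃ j, γ = - gen j
  · obtain ⟨j, rfl⟩ := h1
    exact ⟨j, by rwa [mem_support, coeff_ser] at h, rfl⟩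
  · push Not at h1
    exact absurd (coeff_ser_of_ne φ h1) h

theorem ser_add (φ ψ : J → ZMod 2) : ser (φ + ψ) = ser φ + ser ψ := by
  ext γ
  rw [coeff_add]
  by_cases h1 : ∃ j, γ = - gen j
  · obtain ⟨j, rfl⟩ := h1
    simp only [coeff_ser, Pi.add_apply]
  · push Not at h1
    simp only [coeff_ser_of_ne _ h1, add_zero]

theorem ser_zero : ser (0 : J → ZMod 2) = 0 := by
  ext γ
  by_cases h1 : ∃ j, γ = - gen j
  · obtain ⟨j, rfl⟩ := h1
    simp only [coeff_ser, Pi.zero_apply, coeff_zero]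
  · push Not at h1
    simp only [coeff_ser_of_ne _ h1, coeff_zero]

theorem ser_finite {φ : J → ZMod 2} (h : {j | φ j ≠ 0}.Finite) :
    (ser φ).support ⊆ FT (-1) h.toFinset := by
  intro γ hγ
  obtain ⟨j, hj, rfl⟩ := mem_support_ser hγ
  refine ⟨fun i hi => ?_, by rw [map_neg, deg_gen]⟩
  rw [map_neg, co_gen_ne, neg_zero]
  rintro rfl
  exact hi (by simpa using hj)

/-- the subgroup `𝔽_{-1} + 𝒪` -/
def W (J : Type) [LinearOrder J] : AddSubgroup (HH J) where
  carrier := {x | ∃ a o : HH J, (∃ F : Finset J, a.support ⊆ FT (-1) F) ∧ 0 ≤ o.orderTop ∧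
    x = a + o}
  zero_mem' := ⟨0, 0, ⟨∅, by simp⟩, by simp, by simp⟩
  add_mem' := by
    rintro x y ⟨a, o, ⟨F, hF⟩, ho, rfl⟩ ⟨a', o', ⟨F', hF'⟩, ho', rfl⟩
    refine ⟨a + a', o + o', ⟨F ∪ F', ?_⟩, ?_, by abel⟩
    · exact (support_add_subset _ _).trans (Set.union_subset
        (hF.trans (FT_mono Finset.subset_union_left))
        (hF'.trans (FT_mono Finset.subset_union_right)))
    · exact le_trans (le_min ho ho') min_orderTop_le_orderTop_add
  neg_mem' := by
    rintro x ⟨a, o, ⟨F, hF⟩, ho, rfl⟩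
    exact ⟨-a, -o, ⟨F, by rwa [support_neg]⟩, by rwa [orderTop_neg], by abel⟩

theorem mem_W_of_fin {a : HH J} {F : Finset J} (h : a.support ⊆ FT (-1) F) : a ∈ W J :=
  ⟨a, 0, ⟨F, h⟩, by simp, by simp⟩

theorem mem_W_of_nonneg {a : HH J} (h : 0 ≤ a.orderTop) : a ∈ W J :=
  ⟨0, a, ⟨∅, by simp⟩, h, by simp⟩

/-- elements of the base valuation domain with finite type `F` -/
def Dd (F : Finset J) (d : HH J) : Prop := d.support ⊆ FT 0 F ∧ 0 ≤ d.orderTop

theorem mul_mem_W {F : Finset J} {d x : HH J} (hd : Dd F d) (hx : x ∈ W J) : d * x ∈ W J := by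
  obtain ⟨a, o, ⟨F', hF'⟩, ho, rfl⟩ := hx
  refine ⟨d * a, d * o, ⟨F ∪ F', ?_⟩, ?_, by ring⟩
  · exact support_mul_subset' hd.1 hF' (fun a ha b hb => by simpa using FT_add ha hb)
  · refine le_trans ?_ orderTop_add_le_mul
    exact add_nonneg hd.2 ho

end

end Pool.Agent.Helper89.VR
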