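import Pool.Agent.Helper89.VR.Theta

/-!
The twist and its independence of choices (problem MP_aa9b56_al).
-/

set_option autoImplicit false
set_option linter.unusedSectionVars false

open HahnSeries

noncomputable section

namespace Pool.Agent.Helper89.VR

/-- The combinatorial input. -/
structure Data (V J : Type) [LinearOrder V] [LinearOrder J] where
  hV : V → J
  mono : StrictMono hV
  cof : ∀ j, ∃ v, j ≤ hV v
  f : V → V → J → ZMod 2
  f0 : ∀ a b v, f a b (hV v) = 0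
  coh : ∀ a b c, a < b → b < c → {j | j < hV a ∧ f a b j + f b c j + f a c j ≠ 0}.Finite

namespace Data
variable {V J : Type} [LinearOrder V] [WellFoundedLT V] [LinearOrder J] [WellFoundedLT J]
  (𝒞 : Data V J)

/-- least `v` with `j ≤ hV v` -/
def p (j : J) : V := wellFounded_lt.min {v | j ≤ 𝒞.hV v} (𝒞.cof j)

theorem le_hV_p (j : J) : j ≤ 𝒞.hV (𝒞.p j) :=
  WellFounded.min_mem wellFounded_lt {v | j ≤ 𝒞.hV v} (𝒞.cof j)

theorem p_le {j : J} {v : V} (h : j ≤ 𝒞.hV v) : 𝒞.p j ≤ v := by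
  by_contra h1
  exact WellFounded.not_lt_min wellFounded_lt {v | j ≤ 𝒞.hV v} h (not_le.1 h1)

theorem p_hV (v : V) : 𝒞.p (𝒞.hV v) = v := by
  refine le_antisymm (𝒞.p_le le_rfl) ?_
  exact 𝒞.mono.le_iff_le.1 (𝒞.le_hV_p _)

theorem p_mono {i j : J} (h : i ≤ j) : 𝒞.p i ≤ 𝒞.p j := 𝒞.p_le (h.trans (𝒞.le_hV_p j))

/-- the coherent functions, extended by zero -/
def ff (a b : V) : J → ZMod 2 := fun τ =>
  open Classical in if a < b ∧ τ < 𝒞.hV a then 𝒞.f a b τ else 0

/-- restriction of `ff b c` to `τ < hV a` -/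
def fr (a b c : V) : J → ZMod 2 := fun τ =>
  open Classical in if τ < 𝒞.hV a then 𝒞.ff b c τ else 0

/-- restriction of `ff b c` to `hV a ≤ τ` -/
def fr' (a b c : V) : J → ZMod 2 := fun τ =>
  open Classical in if τ < 𝒞.hV a then 0 else 𝒞.ff b c τ

theorem fr_add_fr' (a b c : V) : 𝒞.fr a b c + 𝒞.fr' a b c = 𝒞.ff b c := by
  funext τ
  simp only [Pi.add_apply, fr, fr']
  split_ifs <;> simp

/-- the finite error -/
def fe (a b c : V) : J → ZMod 2 := 𝒞.ff a c + 𝒞.ff a b + 𝒞.fr a b c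

theorem fe_finite {a b c : V} (hab : a ≤ b) (hbc : b ≤ c) : {j | 𝒞.fe a b c j ≠ 0}.Finite := by
  rcases hab.eq_or_lt with rfl | hab
  · convert Set.finite_empty
    ext j
    simp only [fe, Pi.add_apply, fr, ff, lt_irrefl, false_and, if_false, Set.mem_ofPred_eq,
      Set.mem_empty_iff_false, iff_false, not_not, add_zero]
    by_cases h1 : j < 𝒞.hV a
    · simp only [h1, if_true]
      exact CharTwo.add_self_eq_zero _
    · simp [h1]
  rcases hbc.eq_or_lt with rfl | hbc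
  · convert Set.finite_empty
    ext j
    simp only [fe, Pi.add_apply, fr, ff, lt_irrefl, false_and, if_false, Set.mem_ofPred_eq,
      Set.mem_empty_iff_false, iff_false, not_not]
    split_ifs <;> simp [CharTwo.add_self_eq_zero]
  · refine (𝒞.coh a b c hab hbc).subset ?_
    intro j hj
    simp only [fe, Pi.add_apply, fr, ff, Set.mem_ofPred_eq, hab, hbc, hab.trans hbc, true_and] at hj ⊢
    by_cases h1 : j < 𝒞.hV a
    · have h2 : j < 𝒞.hV b := h1.trans (𝒞.mono hab)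
      simp only [h1, h2, if_true] at hj
      refine ⟨h1, ?_⟩
      intro h3
      apply hj
      rw [← h3]; ring
    · simp [h1] at hj

/-- the series of `ff a b` -/
def fs (a b : V) : HH J := ser (𝒞.ff a b)

/-- the twist -/
def theta (F : Finset J) (b : J) (d : HH J) : HH J := ∑ j ∈ F, D j d * 𝒞.fs (𝒞.p j) (𝒞.p b)

theorem theta_add (F : Finset J) (b : J) (x y : HH J) :
    𝒞.theta F b (x + y) = 𝒞.theta F b x + 𝒞.theta F b y := by
  simp only [theta, D_add, add_mul, Finset.sum_add_distrib]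

theorem theta_mul (F : Finset J) (b : J) (x y : HH J) :
    𝒞.theta F b (x * y) = x * 𝒞.theta F b y + y * 𝒞.theta F b x := by
  simp only [theta, D_mul, Finset.mul_sum, ← Finset.sum_add_distrib]
  refine Finset.sum_congr rfl fun j _ => ?_
  ring

theorem theta_subset {F F' : Finset J} (h : F ⊆ F') (b : J) {d : HH J}
    (hd : d.support ⊆ FT 0 F) : 𝒞.theta F' b d = 𝒞.theta F b d := by
  symm
  refine Finset.sum_subset h fun j _ hj => ?_
  rw [D_eq_zero hd hj, zero_mul]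

theorem theta_base {F : Finset J} {b b' : J} (hb : ∀ j ∈ F, j ≤ b) (hbb : b ≤ b') {d : HH J}
    (hd : Dd F d) : 𝒞.theta F b' d + 𝒞.theta F b d ∈ W J := by
  have key : 𝒞.theta F b' d + 𝒞.theta F b d =
      ∑ j ∈ F, (D j d * ser (𝒞.fe (𝒞.p j) (𝒞.p b) (𝒞.p b')) +
        D j d * ser (𝒞.fr' (𝒞.p j) (𝒞.p b) (𝒞.p b'))) := by
    have h1 : ∀ j, 𝒞.fs (𝒞.p j) (𝒞.p b') + 𝒞.fs (𝒞.p j) (𝒞.p b) =
        ser (𝒞.fe (𝒞.p j) (𝒞.p b) (𝒞.p b')) + ser (𝒞.fr' (𝒞.p j) (𝒞.p b) (𝒞.p b')) +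
          𝒞.fs (𝒞.p b) (𝒞.p b') := by
      intro j
      simp only [fs]
      rw [← ser_add, ← ser_add, ← ser_add]
      congr 1
      rw [← 𝒞.fr_add_fr' (𝒞.p j) (𝒞.p b) (𝒞.p b'), fe]
      funext τ
      simp only [Pi.add_apply]
      have h2 : ∀ x : ZMod 2, x + x = 0 := fun x => CharTwo.add_self_eq_zero x
      linear_combination (-1 : ZMod 2) * h2 (𝒞.fr (𝒞.p j) (𝒞.p b) (𝒞.p b') τ) +
        (-1 : ZMod 2) * h2 (𝒞.fr' (𝒞.p j) (𝒞.p b) (𝒞.p b') τ)
    have h3 : ∑ j ∈ F, D j d * 𝒞.fs (𝒞.p b) (𝒞.p b') = 0 := by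
      rw [← Finset.sum_mul, sum_D hd.1, zero_mul]
    simp only [theta]
    rw [← Finset.sum_add_distrib]
    rw [← add_zero (∑ j ∈ F, (D j d * ser (𝒞.fe (𝒞.p j) (𝒞.p b) (𝒞.p b')) +
        D j d * ser (𝒞.fr' (𝒞.p j) (𝒞.p b) (𝒞.p b')))), ← h3, ← Finset.sum_add_distrib]
    refine Finset.sum_congr rfl fun j _ => ?_
    rw [← mul_add, h1 j, mul_add, mul_add]
  rw [key]
  refine AddSubgroup.sum_mem _ fun j hj => AddSubgroup.add_mem _ ?_ ?_
  · have hfin := 𝒞.fe_finite (𝒞.p_mono (hb j hj)) (𝒞.p_mono hbb)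
    refine mem_W_of_fin (F := F ∪ hfin.toFinset) ?_
    refine support_mul_subset' ((support_D j d).trans hd.1) (ser_finite hfin) ?_
    intro x hx y hy
    simpa using FT_add hx hy
  · refine mem_W_of_nonneg ?_
    have : ((0 : Gam J) : WithTop (Gam J)) ≤ (D j d * ser (𝒞.fr' (𝒞.p j) (𝒞.p b) (𝒞.p b'))).orderTop := by
      rw [le_orderTop_iff_supp]
      intro γ hγ
      obtain ⟨x, hx, y, hy, rfl⟩ := support_mul_subset hγ
      obtain ⟨τ, hτ, rfl⟩ := mem_support_ser hy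
      have hx0 : 0 ≤ x := by
        have h0 : ((0 : Gam J) : WithTop (Gam J)) ≤ d.orderTop := hd.2
        exact le_orderTop_iff_supp.1 h0 x (support_D j d hx)
      have hxj : co j x ≠ 0 := by
        intro h
        rw [mem_support, coeff_D, h, Int.cast_zero, zero_mul] at hx
        exact hx rfl
      have hτ1 : 𝒞.hV (𝒞.p j) ≤ τ := by
        by_contra h1
        exact hτ (by simp only [fr', if_pos (not_le.1 h1)])
      have hτ2 : j < τ := by
        refine lt_of_le_of_ne ((𝒞.le_hV_p j).trans hτ1) ?_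
        rintro rfl
        have h2 : j = 𝒞.hV (𝒞.p j) := le_antisymm (𝒞.le_hV_p j) hτ1
        apply hτ
        simp only [fr', ff]
        rw [h2, 𝒞.f0]
        simp
      have := sub_gen_pos hx0 hxj hτ2
      simp only []
      rw [sub_eq_add_neg] at this
      exact this.le
    exact this

end Data

end Pool.Agent.Helper89.VR
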