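import Pool.Agent.Helper89.VR.Ring

/-!
The valuation property of the twisted ring (problem MP_aa9b56_al).
-/

set_option autoImplicit false
set_option linter.unusedSectionVars false

open HahnSeries

noncomputable section

namespace Pool.Agent.Helper89.VR

section
variable {J : Type} [LinearOrder J]

theorem support_inv_FT {n : ℤ} {F : Finset J} {x : HH J} (hx : x.support ⊆ FT n F) :
    (x⁻¹).support ⊆ FT (-n) F := by
  by_cases h0 : x = 0
  · subst h0; simp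
  have hne : x.support.Nonempty := support_nonempty_iff.2 h0
  obtain ⟨c, hc⟩ := hne
  have h1 : (single (-c) (1 : ZMod 2) * x).support ⊆ GF F := by
    refine support_mul_subset' (A := {-c}) (support_single_subset) hx ?_
    rintro a ha b hb
    rw [Set.mem_singleton_iff] at ha
    subst ha
    have := FT_add (FT_neg (hx hc)) hb
    show -c + b ∈ FT 0 F
    simpa using this
  have h2 := support_inv_subset (GF F) h1
  have h3 : x⁻¹ = single (-c) (1 : ZMod 2) * (single (-c) (1 : ZMod 2) * x)⁻¹ := by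
    have h4 : (single (-c) (1 : ZMod 2)) ≠ 0 := by simp
    field_simp
  rw [h3]
  refine support_mul_subset' (A := {-c}) (support_single_subset) h2 ?_
  rintro a ha b hb
  rw [Set.mem_singleton_iff] at ha
  subst ha
  have := FT_add (FT_neg (hx hc)) (show b ∈ FT 0 F from hb)
  simpa using this

theorem support_div_FT {n m : ℤ} {F F' : Finset J} {x y : HH J} (hx : x.support ⊆ FT n F)
    (hy : y.support ⊆ FT m F') : (x / y).support ⊆ FT (n - m) (F ∪ F') := by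
  rw [div_eq_mul_inv]
  refine support_mul_subset' hx (support_inv_FT hy) ?_
  intro a ha b hb
  exact FT_add ha hb

theorem orderTop_div_nonneg {x y : HH J} (hx : x ≠ 0) (h : x.orderTop ≤ y.orderTop) :
    0 ≤ (y / x).orderTop := by
  by_contra h1
  rw [not_le] at h1
  have h2 : y = (y / x) * x := by field_simp
  have h3 : y.orderTop = (y / x).orderTop + x.orderTop := by
    conv_lhs => rw [h2]
    exact orderTop_mul _ _
  rw [h3] at h
  rw [orderTop_of_ne_zero hx] at h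
  have h4 : ∃ c : Gam J, (y / x).orderTop = (c : WithTop (Gam J)) := by
    exact ⟨_, (WithTop.coe_untop _ (ne_top_of_lt h1)).symm⟩
  obtain ⟨c, hc⟩ := h4
  rw [hc] at h h1
  norm_cast at h h1
  have := add_lt_of_neg_left (x.isWF_support.min (support_nonempty_iff.2 hx)) h1
  exact absurd h (not_le.2 this)

theorem orderTop_mul_pos {x y : HH J} (hx : 0 ≤ x.orderTop) (hy : 0 < y.orderTop) :
    0 < (x * y).orderTop := by
  have hx' : ((0 : Gam J) : WithTop (Gam J)) ≤ x.orderTop := hx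
  have hy' : ((0 : Gam J) : WithTop (Gam J)) < y.orderTop := hy
  show ((0 : Gam J) : WithTop (Gam J)) < (x * y).orderTop
  rw [le_orderTop_iff_supp] at hx'
  rw [lt_orderTop_iff_supp] at hy' ⊢
  intro γ hγ
  obtain ⟨a, ha, b, hb, rfl⟩ := support_mul_subset hγ
  exact add_pos_of_nonneg_of_pos (hx' a ha) (hy' b hb)

end

namespace Data
variable {V J : Type} [LinearOrder V] [WellFoundedLT V] [LinearOrder J] [WellFoundedLT J]
  (𝒞 : Data V J) [Nonempty J]

/-- general elements -/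
theorem mk_mem {F : Finset J} {b : J} (hb : ∀ j ∈ F, j ≤ b) {d w : HH J} (hd : Dd F d) (hw : w ∈ W J) :
    TrivSqZeroExt.inl d + TrivSqZeroExt.inr (𝒞.theta F b d + w) ∈ 𝒞.Rt := by
  refine ⟨F, b, hb, ?_, ?_⟩
  · simpa using hd
  · simpa using hw

theorem val_aux1 (x y : 𝒞.Rt) (hx : x.1.fst ≠ 0) (h : x.1.fst.orderTop ≤ y.1.fst.orderTop) :
    ∃ z : 𝒞.Rt, y - z * x ∈ 𝒞.nn := by
  obtain ⟨x, F, b, hx'⟩ := x
  obtain ⟨y, F', b', hy'⟩ := y
  obtain ⟨hx', hy'⟩ := Mem.common 𝒞 hx' hy'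
  set F0 := F ∪ F'
  set b0 := max b b'
  clear_value F0 b0
  obtain ⟨hb, hdx, hwx⟩ := hx'
  obtain ⟨-, hdy, hwy⟩ := hy'
  simp only at hx h
  have he : Dd F0 (y.fst / x.fst) := by
    refine ⟨?_, orderTop_div_nonneg hx h⟩
    have := support_div_FT hdy.1 hdx.1
    rwa [Finset.union_self, sub_zero] at this
  have hw : (y.snd - 𝒞.theta F0 b0 y.fst) - (y.fst / x.fst) * (x.snd - 𝒞.theta F0 b0 x.fst) ∈ W J :=
    (W J).sub_mem hwy (mul_mem_W he hwx)
  obtain ⟨a, o, ⟨F1, hF1⟩, ho, hao⟩ := hw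
  have hu : a / x.fst ∈ W J := by
    have := support_div_FT hF1 hdx.1
    rw [sub_zero] at this
    exact mem_W_of_fin this
  refine ⟨⟨_, 𝒞.mk_mem hb he hu⟩, ?_, ?_⟩
  · simp [hx]
  · simp only [AddSubgroupClass.coe_sub, Subring.coe_mul, TrivSqZeroExt.snd_sub, TrivSqZeroExt.snd_mul,
      TrivSqZeroExt.fst_add, TrivSqZeroExt.fst_inl, TrivSqZeroExt.fst_inr, TrivSqZeroExt.snd_add,
      TrivSqZeroExt.snd_inl, TrivSqZeroExt.snd_inr, smul_eq_mul, MulOpposite.smul_eq_mul_unop,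
      MulOpposite.unop_op, add_zero, zero_add]
    have h1 : 𝒞.theta F0 b0 y.fst = 𝒞.theta F0 b0 ((y.fst / x.fst) * x.fst) := by
      rw [div_mul_cancel₀ _ hx]
    rw [theta_mul] at h1
    have h2 : y.snd - (y.fst / x.fst * x.snd + (𝒞.theta F0 b0 (y.fst / x.fst) + a / x.fst) * x.fst) = o := by
      have h3 : a / x.fst * x.fst = a := div_mul_cancel₀ _ hx
      rw [h1] at hao
      linear_combination hao - h3
    rw [h2]
    exact ho

theorem val_aux2 (x y : 𝒞.Rt) (hx : x.1.fst = 0) (hy : y.1.fst ≠ 0) :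
    ∃ z : 𝒞.Rt, x - z * y ∈ 𝒞.nn := by
  obtain ⟨x, F, b, hx'⟩ := x
  obtain ⟨y, F', b', hy'⟩ := y
  obtain ⟨hx', hy'⟩ := Mem.common 𝒞 hx' hy'
  set F0 := F ∪ F'
  set b0 := max b b'
  clear_value F0 b0
  obtain ⟨hb, hdx, hwx⟩ := hx'
  obtain ⟨-, hdy, hwy⟩ := hy'
  simp only at hx hy
  rw [hx, theta_zero, sub_zero] at hwx
  obtain ⟨a, o, ⟨F1, hF1⟩, ho, hao⟩ := hwx
  have hu : a / y.fst ∈ W J := by
    have := support_div_FT hF1 hdy.1
    rw [sub_zero] at this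
    exact mem_W_of_fin this
  refine ⟨⟨_, 𝒞.mk_mem hb (Dd_zero F0) hu⟩, ?_, ?_⟩
  · simp [hx]
  · simp only [AddSubgroupClass.coe_sub, Subring.coe_mul, TrivSqZeroExt.snd_sub, TrivSqZeroExt.snd_mul,
      TrivSqZeroExt.fst_add, TrivSqZeroExt.fst_inl, TrivSqZeroExt.fst_inr, TrivSqZeroExt.snd_add,
      TrivSqZeroExt.snd_inl, TrivSqZeroExt.snd_inr, smul_eq_mul, MulOpposite.smul_eq_mul_unop,
      MulOpposite.unop_op, add_zero, zero_add, theta_zero, zero_mul, div_mul_cancel₀ _ hy]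
    have h2 : x.snd - a = o := by rw [hao]; ring
    rw [h2]
    exact ho

theorem val_aux3 (x y : 𝒞.Rt) (hx : x.1.fst = 0) (hy : y.1.fst = 0) :
    (∃ z : 𝒞.Rt, y - z * x ∈ 𝒞.nn) ∨ ∃ z : 𝒞.Rt, x - z * y ∈ 𝒞.nn := by
  have key : ∀ (x y : 𝒞.Rt) (a o a' o' : HH J) (F F' : Finset J), x.1.fst = 0 → y.1.fst = 0 →
      a.support ⊆ FT (-1) F → 0 ≤ o.orderTop → x.1.snd = a + o →
      a'.support ⊆ FT (-1) F' → 0 ≤ o'.orderTop → y.1.snd = a' + o' → a.orderTop ≤ a'.orderTop →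
      ∃ z : 𝒞.Rt, y - z * x ∈ 𝒞.nn := by
    intro x y a o a' o' F F' hx hy ha ho hx2 ha' ho' hy2 haa
    by_cases h0 : a = 0
    · have h1 : a' = 0 := by
        rw [h0, orderTop_zero, top_le_iff, orderTop_eq_top] at haa
        exact haa
      refine ⟨0, ?_, ?_⟩
      · simp [hy]
      · simp [hy2, h1, ho']
    · obtain ⟨b, hb⟩ : ∃ b : J, ∀ j ∈ F' ∪ F, j ≤ b := by
        obtain ⟨b, hb⟩ := (F' ∪ F).bddAbove
        exact ⟨b, fun j hj => hb hj⟩
      have he : Dd (F' ∪ F) (a' / a) := by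
        refine ⟨?_, orderTop_div_nonneg h0 haa⟩
        have := support_div_FT ha' ha
        rwa [sub_self] at this
      refine ⟨⟨_, 𝒞.mk_mem hb he (W J).zero_mem⟩, ?_, ?_⟩
      · simp [hx, hy]
      · simp only [AddSubgroupClass.coe_sub, Subring.coe_mul, TrivSqZeroExt.snd_sub, TrivSqZeroExt.snd_mul,
          TrivSqZeroExt.fst_add, TrivSqZeroExt.fst_inl, TrivSqZeroExt.fst_inr, TrivSqZeroExt.snd_add,
          TrivSqZeroExt.snd_inl, TrivSqZeroExt.snd_inr, smul_eq_mul, MulOpposite.smul_eq_mul_unop,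
          MulOpposite.unop_op, add_zero, zero_add, hx, mul_zero, hx2, hy2]
        have h2 : a' + o' - (a' / a * (a + o)) = o' + -(a' / a * o) := by
          have h3 : a' / a * a = a' := div_mul_cancel₀ _ h0
          linear_combination - h3
        rw [h2]
        refine le_trans (le_min ho' ?_) min_orderTop_le_orderTop_add
        rw [orderTop_neg]
        exact (add_nonneg he.2 ho).trans orderTop_add_le_mul
  obtain ⟨F, b, hx'⟩ := x.2
  obtain ⟨F', b', hy'⟩ := y.2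
  obtain ⟨-, -, hwx⟩ := hx'
  obtain ⟨-, -, hwy⟩ := hy'
  rw [hx, theta_zero, sub_zero] at hwx
  rw [hy, theta_zero, sub_zero] at hwy
  obtain ⟨a, o, ⟨F1, hF1⟩, ho, hao⟩ := hwx
  obtain ⟨a', o', ⟨F1', hF1'⟩, ho', hao'⟩ := hwy
  rcases le_total a.orderTop a'.orderTop with h | h
  · exact Or.inl (key x y a o a' o' F1 F1' hx hy hF1 ho hao hF1' ho' hao' h)
  · exact Or.inr (key y x a' o' a o F1' F1 hy hx hF1' ho' hao' hF1 ho hao h)

theorem val (x y : 𝒞.Rt) :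
    (∃ z : 𝒞.Rt, y - z * x ∈ 𝒞.nn) ∨ ∃ z : 𝒞.Rt, x - z * y ∈ 𝒞.nn := by
  by_cases hx : x.1.fst = 0
  · by_cases hy : y.1.fst = 0
    · exact 𝒞.val_aux3 x y hx hy
    · exact Or.inr (𝒞.val_aux2 x y hx hy)
  · by_cases hy : y.1.fst = 0
    · exact Or.inl (𝒞.val_aux2 y x hy hx)
    · rcases le_total x.1.fst.orderTop y.1.fst.orderTop with h | h
      · exact Or.inl (𝒞.val_aux1 x y hx h)
      · exact Or.inr (𝒞.val_aux1 y x hy h)

theorem val_RR (x y : 𝒞.RR) : (∃ z, y = z * x) ∨ ∃ z, x = z * y := by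
  obtain ⟨x, rfl⟩ := Ideal.Quotient.mk_surjective x
  obtain ⟨y, rfl⟩ := Ideal.Quotient.mk_surjective y
  rcases 𝒞.val x y with ⟨z, hz⟩ | ⟨z, hz⟩
  · left
    refine ⟨Ideal.Quotient.mk _ z, ?_⟩
    rw [← map_mul, Ideal.Quotient.eq]
    exact hz
  · right
    refine ⟨Ideal.Quotient.mk _ z, ?_⟩
    rw [← map_mul, Ideal.Quotient.eq]
    exact hz

theorem ideals_total (I K : Ideal 𝒞.RR) : I ≤ K ∨ K ≤ I := by
  by_contra h
  rw [not_or, SetLike.not_le_iff_exists, SetLike.not_le_iff_exists] at h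
  obtain ⟨⟨x, hxI, hxK⟩, ⟨y, hyK, hyI⟩⟩ := h
  rcases 𝒞.val_RR x y with ⟨z, rfl⟩ | ⟨z, rfl⟩
  · exact hyI (I.mul_mem_left z hxI)
  · exact hxK (K.mul_mem_left z hyK)

/-- the maximal ideal upstairs -/
def Pt : Ideal 𝒞.Rt where
  carrier := {x | 0 < (x : TrivSqZeroExt (HH J) (HH J)).fst.orderTop}
  zero_mem' := by simp
  add_mem' := by
    rintro x y hx hy
    simp only [Set.mem_ofPred_eq] at hx hy ⊢
    rw [Subring.coe_add, TrivSqZeroExt.fst_add]
    exact lt_of_lt_of_le (lt_min hx hy) min_orderTop_le_orderTop_add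
  smul_mem' := by
    rintro c x hx
    simp only [Set.mem_ofPred_eq] at hx ⊢
    rw [smul_eq_mul, Subring.coe_mul, TrivSqZeroExt.fst_mul]
    exact orderTop_mul_pos (𝒞.nonneg_fst c) hx

theorem mem_Pt {x : 𝒞.Rt} : x ∈ 𝒞.Pt ↔ 0 < x.1.fst.orderTop := Iff.rfl

theorem nn_le_Pt : 𝒞.nn ≤ 𝒞.Pt := by
  intro x hx
  rw [mem_Pt, hx.1]
  simp

/-- the maximal ideal -/
def PP : Ideal 𝒞.RR := 𝒞.Pt.map (Ideal.Quotient.mk 𝒞.nn)

theorem mk_mem_PP {x : 𝒞.Rt} : Ideal.Quotient.mk 𝒞.nn x ∈ 𝒞.PP ↔ 0 < x.1.fst.orderTop :=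
  Ideal.mem_quotient_iff_mem 𝒞.nn_le_Pt

theorem PP_isMaximal : 𝒞.PP.IsMaximal := by
  rw [Ideal.isMaximal_iff]
  constructor
  · rw [← map_one (Ideal.Quotient.mk 𝒞.nn), mk_mem_PP]
    simp
  · intro K x hK hx hxK
    obtain ⟨x, rfl⟩ := Ideal.Quotient.mk_surjective x
    rw [mk_mem_PP] at hx
    have h0 : x.1.fst.orderTop = 0 := le_antisymm (not_lt.1 hx) (𝒞.nonneg_fst x)
    have h1 : x.1.fst ≠ 0 := by
      intro h; rw [h] at h0; simp at h0
    obtain ⟨z, hz⟩ := 𝒞.val_aux1 x 1 h1 (by rw [h0]; simp)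
    have h2 : (1 : 𝒞.RR) = Ideal.Quotient.mk _ z * Ideal.Quotient.mk _ x := by
      rw [← map_mul, ← map_one (Ideal.Quotient.mk 𝒞.nn), Ideal.Quotient.eq]
      exact hz
    rw [h2]
    exact K.mul_mem_left _ hxK

end Data
end Pool.Agent.Helper89.VR
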